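import Pool.Agent.N164.VZ.Odd

/-!
# Alternating products of cycles on a variety
-/

set_option autoImplicit false

open CategoryTheory AlgebraicGeometry

universe u v w

namespace Pool.Agent.N164.VZ

open Pool.Agent.H914 Pool.Agent.H914.VarClass Pool.Agent.H914.VarClass.Obj Pool.Agent.W492.BB
  Pool.Agent.W550.Corr Pool.Agent.TH133 Pool.Agent.TH829.Prime Pool.Agent.TH829.Kim
  Pool.Agent.Y152.AS Pool.Agent.X308.V

set_option linter.unusedSectionVars false

variable {k : Type u} [Field k] {𝒱 : VarClass k}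

section chow

variable {C : TheoryData.{u, v, 0} 𝒱 ℚ} [hC : IsChowProj C] {T T' S X Y Z Z' W V : 𝒱.Obj}

include hC

/-- The value of `b_* z` at a point. -/
lemma pull_act (b : C.A (Y.prod S)) (z : C.A Y) (x : W ⟶ S) :
    C.pull x (C.act b z) = C.push (fst W Y)
      (C.pull (Obj.lift (snd W Y) (fst W Y ≫ x)) b * C.pull (snd W Y) z) := by
  have e1 : snd Y S = sw Y S ≫ fst S Y := by rw [sw, lift_fst]
  have e2 : prodMap x (𝟙 Y) ≫ sw S Y = Obj.lift (snd W Y) (fst W Y ≫ x) := by
    apply prod_ext <;> simp [sw, comp_lift]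
  have e3 : Obj.lift (snd W Y) (fst W Y ≫ x) ≫ fst Y S = snd W Y := lift_fst _ _
  rw [C.act_apply, e1, C.push_comp, ← pull_iso C (sw S Y) (sw Y S) sw_sw sw_sw, base_pull,
    ← C.pull_comp, e2, map_mul, ← C.pull_comp, e3]

/-- Relations between products of values of zero-cycles on `Y` induce relations between products of
values of their images under a correspondence. -/
lemma transfer {ι : Type} [Fintype ι] [DecidableEq ι] (c : Equiv.Perm ι → ℚ) (b : C.A (Y.prod S))
    (z : ι → C.A Y)
    (hz : ∀ (W : 𝒱.Obj) (y : ι → (W ⟶ Y)), ∑ σ, c σ • ∏ k, C.pull (y k) (z (σ k)) = 0)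
    (J : Finset ι) : ∀ (W : 𝒱.Obj) (x : ι → (W ⟶ S)) (y : ι → (W ⟶ Y)),
      ∑ σ, c σ • ∏ k, (if k ∈ J then C.pull (x k) (C.act b (z (σ k))) else
        C.pull (y k) (z (σ k))) = 0 := by
  induction J using Finset.induction_on with
  | empty =>
    intro W x y
    simpa using hz W y
  | insert i J hi ih =>
    intro W x y
    let A : Equiv.Perm ι → C.A W := fun σ => ∏ k ∈ Finset.univ.erase i,
      (if k ∈ J then C.pull (x k) (C.act b (z (σ k))) else C.pull (y k) (z (σ k)))
    let B : C.A (W.prod Y) := C.pull (Obj.lift (snd W Y) (fst W Y ≫ x i)) b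
    have h1 : ∀ σ : Equiv.Perm ι, ∏ k, (if k ∈ insert i J then C.pull (x k) (C.act b (z (σ k)))
        else C.pull (y k) (z (σ k))) = C.push (fst W Y) (B *
          (C.pull (snd W Y) (z (σ i)) * C.pull (fst W Y) (A σ))) := by
      intro σ
      rw [← Finset.mul_prod_erase Finset.univ _ (Finset.mem_univ i),
        if_pos (Finset.mem_insert_self i J), ← mul_assoc, C.proj_right, pull_act]
      congr 1
      apply Finset.prod_congr rfl
      intro k hk
      have hki : k ≠ i := (Finset.mem_erase.1 hk).1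
      by_cases hkJ : k ∈ J
      · rw [if_pos (Finset.mem_insert_of_mem hkJ), if_pos hkJ]
      · rw [if_neg (by simp [hki, hkJ]), if_neg hkJ]
    let y' : ι → (W.prod Y ⟶ Y) := Function.update (fun k => fst W Y ≫ y k) i (snd W Y)
    have h2 : ∀ σ : Equiv.Perm ι, C.pull (snd W Y) (z (σ i)) * C.pull (fst W Y) (A σ) =
        ∏ k, (if k ∈ J then C.pull (fst W Y ≫ x k) (C.act b (z (σ k))) else
          C.pull (y' k) (z (σ k))) := by
      intro σ
      rw [← Finset.mul_prod_erase Finset.univ _ (Finset.mem_univ i), if_neg hi]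
      have e1 : y' i = snd W Y := Function.update_self _ _ _
      rw [e1]
      congr 1
      simp only [A, map_prod]
      apply Finset.prod_congr rfl
      intro k hk
      have hki : k ≠ i := (Finset.mem_erase.1 hk).1
      have e2 : y' k = fst W Y ≫ y k := Function.update_of_ne hki _ _
      rw [e2]
      split_ifs
      · rw [C.pull_comp]
      · rw [C.pull_comp]
    have h3 : ∀ σ : Equiv.Perm ι, c σ • ∏ k, (if k ∈ insert i J then
        C.pull (x k) (C.act b (z (σ k))) else C.pull (y k) (z (σ k))) =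
          C.push (fst W Y) (B * (c σ • ∏ k, (if k ∈ J then
            C.pull (fst W Y ≫ x k) (C.act b (z (σ k))) else C.pull (y' k) (z (σ k))))) := by
      intro σ
      rw [h1, h2, mul_smul_comm, map_smul]
    rw [Finset.sum_congr rfl (fun σ _ => h3 σ), ← map_sum, ← Finset.mul_sum,
      ih (W.prod Y) (fun k => fst W Y ≫ x k) y', mul_zero, map_zero]

/-- The alternating sums of products of `n` elements of `M` vanish. -/
def AltN (C : TheoryData.{u, v, 0} 𝒱 ℚ) [IsChowProj C] {S : 𝒱.Obj} (M : Submodule ℚ (C.A S))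
    (n : ℕ) : Prop :=
  ∀ a : Fin n → C.A S, (∀ i, a i ∈ M) → ∀ (W : 𝒱.Obj) (x : Fin n → (W ⟶ S)),
    ∑ σ : Equiv.Perm (Fin n), sg true σ • ∏ j, C.pull (x j) (a (σ j)) = 0

/-- The alternating sums over any set of indices vanish if enough classes are in `M`. -/
lemma AltN.alt {M : Submodule ℚ (C.A S)} {m : ℕ} (h : AltN C M m) {ι : Type} [Fintype ι]
    [DecidableEq ι] (a : ι → C.A S) (B : Finset ι) (hB : m ≤ B.card) (ha : ∀ i ∈ B, a i ∈ M)
    (x : ι → (W ⟶ S)) : ∑ σ : Equiv.Perm ι, sg true σ • ∏ j, C.pull (x j) (a (σ j)) = 0 := by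
  obtain ⟨B', hB', hc⟩ := Finset.exists_subset_card_eq hB
  exact alt_of_subset (fun i j => C.pull (x j) (a i)) B' hc
    (fun p q hp => h (fun j => a (p j)) (fun j => ha _ (hB' (hp j))) W (fun j => x (q j)))

/-- It is enough to consider generators. -/
lemma AltN.of_span {s : Set (C.A S)} {n : ℕ}
    (h : ∀ a : Fin n → C.A S, (∀ i, a i ∈ s) → ∀ (W : 𝒱.Obj) (x : Fin n → (W ⟶ S)),
      ∑ σ : Equiv.Perm (Fin n), sg true σ • ∏ j, C.pull (x j) (a (σ j)) = 0) :
    AltN C (Submodule.span ℚ s) n := by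
  intro a ha W x
  have h1 := multilinear_span (permMap (fun σ => sg true σ) (fun j => (C.pull (x j)).toLinearMap))
    s (fun u hu => by
      rw [permMap_apply]
      exact h u hu W x) a ha
  rw [permMap_apply] at h1
  exact h1

lemma AltN.mono {M N : Submodule ℚ (C.A S)} {n : ℕ} (h : AltN C M n) (hN : N ≤ M) : AltN C N n :=
  fun a ha => h a (fun i => hN (ha i))

lemma AltN.sup {M M' : Submodule ℚ (C.A S)} {d d' : ℕ} (h : AltN C M (d + 1))
    (h' : AltN C M' (d' + 1)) : AltN C (M ⊔ M') (d + d' + 1) := by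
  classical
  have h1 : M ⊔ M' = Submodule.span ℚ ((M : Set (C.A S)) ∪ M') := by
    rw [Submodule.span_union, Submodule.span_eq, Submodule.span_eq]
  rw [h1]
  apply AltN.of_span
  intro a ha W x
  let B : Finset (Fin (d + d' + 1)) := Finset.univ.filter (fun i => a i ∈ M)
  have hB : ∀ i ∈ Bᶜ, a i ∈ M' := by
    intro i hi
    rcases ha i with h2 | h2
    · exfalso
      rw [Finset.mem_compl, Finset.mem_filter] at hi
      exact hi ⟨Finset.mem_univ _, h2⟩
    · exact h2
  have hc : B.card + Bᶜ.card = d + d' + 1 := by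
    rw [Finset.card_add_card_compl, Fintype.card_fin]
  by_cases hd : d + 1 ≤ B.card
  · exact h.alt a B hd (fun i hi => (Finset.mem_filter.1 hi).2) x
  · exact h'.alt a Bᶜ (by omega) hB x

/-- The image of a set of zero-cycles under a correspondence. -/
lemma AltN.image {n : ℕ} (b : C.A (Y.prod S)) (s : Set (C.A Y))
    (h : ∀ z : Fin n → C.A Y, (∀ i, z i ∈ s) → ∀ (W : 𝒱.Obj) (y : Fin n → (W ⟶ Y)),
      ∑ σ : Equiv.Perm (Fin n), sg true σ • ∏ j, C.pull (y j) (z (σ j)) = 0) :
    AltN C (Submodule.span ℚ {w | ∃ z ∈ s, w = C.act b z}) n := by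
  apply AltN.of_span
  intro a ha W x
  choose z hz hz' using ha
  have h1 := transfer (fun σ => sg true σ) b z (fun W y => h z hz W y) Finset.univ
  -- the statement over `W × Y` restricts to the one over `W`
  have h2 := h1 (W.prod Y) (fun k => fst W Y ≫ x k) (fun _ => snd W Y)
  obtain ⟨e, -, he, -⟩ := hC.exists_deg_one Y
  have h3 : ∀ w : C.A W, C.pull (fst W Y) w = 0 → w = 0 := by
    intro w hw
    have h4 := C.proj_right (fst W Y) (C.pull (snd W Y) e) w
    have h5 : C.push (fst W Y) (C.pull (snd W Y) e) = 1 := he W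
    rw [hw, mul_zero, map_zero, h5, one_mul] at h4
    exact h4.symm
  apply h3
  rw [map_sum, ← h2]
  apply Finset.sum_congr rfl
  intro σ _
  rw [map_smul, map_prod]
  congr 1
  apply Finset.prod_congr rfl
  intro j _
  rw [if_pos (Finset.mem_univ j), C.pull_comp, hz' (σ j)]

/-- The alternating sums of products of the elements of a piece of product type. -/
lemma alt_prod {U : Submodule ℚ (C.A Z)} {U' : Submodule ℚ (C.A Z')} {w w' : ℕ}
    (hU : OddDim C U w) (hU' : OddDim C U' w') (f : Y ⟶ Z) (f' : Y ⟶ Z')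
    (z : Fin (w * w' + 1) → C.A Y)
    (hz : ∀ i, z i ∈ {z | ∃ u ∈ U, ∃ u' ∈ U', z = C.mul (C.up f u) (C.up f' u')})
    (y : Fin (w * w' + 1) → (W ⟶ Y)) :
    ∑ σ : Equiv.Perm (Fin (w * w' + 1)), sg true σ • ∏ j, C.pull (y j) (z (σ j)) = 0 := by
  choose u hu u' hu' hz using hz
  have h1 : Kills w (fun θ : Equiv.Perm (Fin (w * w' + 1)) => ∏ j, C.pull (y j ≫ f) (u (θ j))) :=
    kills_of (fun i j => C.pull (y j ≫ f) (u i))
      (fun p q => hU.sum (fun j => u (p j)) (fun j => hu _) (fun j => y (q j) ≫ f))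
  have h2 : Kills w' (fun θ : Equiv.Perm (Fin (w * w' + 1)) =>
      ∏ j, C.pull (y j ≫ f') (u' (θ j))) :=
    kills_of (fun i j => C.pull (y j ≫ f') (u' i))
      (fun p q => hU'.sum (fun j => u' (p j)) (fun j => hu' _) (fun j => y (q j) ≫ f'))
  have h3 := alt_mul_eq_zero (a := w') (b := w) (by rw [Fintype.card_fin, mul_comm]; omega) h1 h2
  rw [← h3]
  apply Finset.sum_congr rfl
  intro σ _
  rw [← Finset.prod_mul_distrib]
  congr 1
  apply Finset.prod_congr rfl
  intro j _
  rw [hz, map_mul, C.pull_comp, C.pull_comp]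

/-- The symmetric or antisymmetric products of elements of `U`. -/
def symSet (C : TheoryData.{u, v, 0} 𝒱 ℚ) (s : Bool) (U : Submodule ℚ (C.A Z)) (f f' : Y ⟶ Z) :
    Set (C.A Y) :=
  {z | ∃ u ∈ U, ∃ u' ∈ U, z = C.mul (C.up f u) (C.up f' u') +
    (if s = true then (-1 : ℚ) else 1) • C.mul (C.up f u') (C.up f' u)}

/-- The alternating sums of products of symmetric or antisymmetric products. -/
lemma alt_sym (s : Bool) {U : Submodule ℚ (C.A Z)} {w : ℕ} (hU : OddDim C U w) (f f' : Y ⟶ Z)
    {n : ℕ} (hn : pairs s w < n) (z : Fin n → C.A Y) (hz : ∀ i, z i ∈ symSet C s U f f')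
    (y : Fin n → (W ⟶ Y)) :
    ∑ σ : Equiv.Perm (Fin n), sg true σ • ∏ j, C.pull (y j) (z (σ j)) = 0 := by
  choose u hu u' hu' hz using hz
  let v : Fin n × Bool → C.A Z := fun p => if p.2 = true then u' p.1 else u p.1
  have hv : ∀ p, v p ∈ U := by
    rintro ⟨i, c⟩
    cases c
    · exact hu i
    · exact hu' i
  let t : Fin n × Bool → (W ⟶ Z) := fun p => if p.2 = true then y p.1 ≫ f' else y p.1 ≫ f
  have h1 : Kills w (fun θ : Equiv.Perm (Fin n × Bool) => ∏ p, C.pull (t p) (v (θ p))) :=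
    kills_of (fun i j => C.pull (t j) (v i))
      (fun p q => hU.sum (fun j => v (p j)) (fun j => hv _) (fun j => t (q j)))
  have h2 := gam_eq_zero s (by rwa [Fintype.card_fin]) _ h1
  rw [← h2, gam]
  apply Finset.sum_congr rfl
  intro σ _
  have h3 : ∀ j, C.pull (y j) (z (σ j)) = ∑ c : Bool,
      (if (s && c) = true then (-1 : ℚ) else 1) •
        (C.pull (t (j, false)) (v (σ j, c)) * C.pull (t (j, true)) (v (σ j, !c))) := by
    intro j
    rw [Fintype.sum_bool, hz]
    simp only [v, t, map_add, map_smul, map_mul, C.pull_comp, Bool.and_true,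
      Bool.and_false, Bool.not_true, Bool.not_false, if_true, Bool.false_eq_true, if_false,
      one_smul]
    rw [add_comm]
  rw [Finset.prod_congr rfl (fun j _ => h3 j), Finset.prod_univ_sum, Fintype.piFinset_univ,
    Finset.smul_sum]
  apply Finset.sum_congr rfl
  intro ε _
  rw [mul_smul]
  congr 1
  rw [chi, Finset.prod_smul]
  congr 1
  rw [Fintype.prod_prod_type]
  apply Finset.prod_congr rfl
  intro j _
  rw [Fintype.prod_bool, hyp_apply, hyp_apply, mul_comm]
  simp only [Bool.false_xor, Bool.true_xor]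

end chow

end Pool.Agent.N164.VZ
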