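import Pool.Agent.H204R3.SP.Anti

/-!
# Representations killed by antisymmetrizers are spanned by vectors invariant under Young subgroups

If the antisymmetrizers over `c + 1` indices vanish on a stable subspace of a representation of a
symmetric group, this subspace is spanned by vectors which are invariant under the Young subgroup
of a colouring of the indices by `c` colours.
-/

set_option autoImplicit false

namespace Pool.Agent.N164.VZ

open Equiv Finset Pool.Agent.H204R3.SP

variable {κ : Type*} [Fintype κ] [DecidableEq κ] {X : Type*} [AddCommGroup X] [Module ℚ X]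
  (ρ : Representation ℚ (Perm κ) X)

lemma swap_swap_app {κ : Type*} [DecidableEq κ] (p q k : κ) : swap p q (swap p q k) = k := by
  rw [← Perm.mul_apply, swap_mul_self, Perm.one_apply]

/-- The vector `x` is invariant under the transpositions of the indices in `D` with the same
colour. -/
def Col (D : Finset κ) (f : κ → ℕ) (x : X) : Prop :=
  ∀ p ∈ D, ∀ q ∈ D, f p = f q → ρ (swap p q) x = x

/-- The span of the vectors of `N` invariant under the Young subgroup of a colouring of `D` by `c`
colours. -/
def colSpan (N : Submodule ℚ X) (c : ℕ) (D : Finset κ) : Submodule ℚ X :=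
  Submodule.span ℚ {x | x ∈ N ∧ ∃ f : κ → ℕ, (∀ p ∈ D, f p < c) ∧ Col ρ D f x}

variable {ρ}

set_option linter.unusedSectionVars false

lemma colSpan_stable {N : Submodule ℚ X} (hN : ∀ π : Perm κ, ∀ x ∈ N, ρ π x ∈ N) {c : ℕ}
    {D : Finset κ} {π : Perm κ} (hπ : ∀ k, k ∈ D → π⁻¹ k ∈ D) {x : X}
    (hx : x ∈ colSpan ρ N c D) : ρ π x ∈ colSpan ρ N c D := by
  induction hx using Submodule.span_induction with
  | mem x hx =>
    obtain ⟨h1, f, h2, h3⟩ := hx
    refine Submodule.subset_span ⟨hN π x h1, fun k => f (π⁻¹ k), fun p hp => h2 _ (hπ p hp), ?_⟩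
    intro p hp q hq hf
    rw [← Module.End.mul_apply, ← map_mul, swap_mul_eq_mul_swap, map_mul, Module.End.mul_apply,
      h3 _ (hπ p hp) _ (hπ q hq) hf]
  | zero => rw [map_zero]; exact Submodule.zero_mem _
  | add x y _ _ hx hy => rw [map_add]; exact Submodule.add_mem _ hx hy
  | smul q x _ hx => rw [map_smul]; exact Submodule.smul_mem _ _ hx

/-- The relation satisfied by the Jucys-Murphy element of a new index. -/
lemma jm_mem {N : Submodule ℚ X} (hN : ∀ π : Perm κ, ∀ x ∈ N, ρ π x ∈ N) {c : ℕ}
    {D : Finset κ} {p₀ : κ} (hp₀ : p₀ ∉ D) {x : X} (hx : x ∈ colSpan ρ N c D) :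
    ∑ k ∈ D, ρ (swap k p₀) x + (c : ℚ) • x ∈ colSpan ρ N c (insert p₀ D) := by
  induction hx using Submodule.span_induction with
  | mem x hx =>
    obtain ⟨h1, f, h2, h3⟩ := hx
    have e1 : ∑ k ∈ D, ρ (swap k p₀) x + (c : ℚ) • x =
        ∑ i ∈ Finset.range c, (x + ∑ k ∈ D with f k = i, ρ (swap k p₀) x) := by
      rw [Finset.sum_add_distrib, Finset.sum_const, Finset.card_range, Nat.cast_smul_eq_nsmul,
        Finset.sum_fiberwise_of_maps_to (fun k hk => Finset.mem_range.2 (h2 k hk)), add_comm]
    rw [e1]
    refine Submodule.sum_mem _ fun i hi => Submodule.subset_span ⟨?_, ?_⟩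
    · exact N.add_mem h1 (Submodule.sum_mem _ fun k _ => hN _ _ h1)
    · have hDne : ∀ k ∈ D, k ≠ p₀ := fun k hk h => hp₀ (h ▸ hk)
      -- invariance for the transpositions in `D`
      have key1 : ∀ p ∈ D, ∀ q ∈ D, f p = f q →
          ρ (swap p q) (x + ∑ k ∈ D with f k = i, ρ (swap k p₀) x) =
            x + ∑ k ∈ D with f k = i, ρ (swap k p₀) x := by
        intro p hp q hq hf
        rw [map_add, h3 p hp q hq hf, map_sum]
        congr 1
        have hsw : ∀ k ∈ D, swap p q k ∈ D ∧ f (swap p q k) = f k := by
          intro k hk
          by_cases h1 : k = p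
          · rw [h1, swap_apply_left]
            exact ⟨hq, hf.symm⟩
          · by_cases h2 : k = q
            · rw [h2, swap_apply_right]
              exact ⟨hp, hf⟩
            · rw [swap_apply_of_ne_of_ne h1 h2]
              exact ⟨hk, rfl⟩
        refine Finset.sum_nbij' (fun k => swap p q k) (fun k => swap p q k) ?_ ?_ ?_ ?_ ?_
        · intro k hk
          rw [Finset.mem_filter] at hk ⊢
          exact ⟨(hsw k hk.1).1, (hsw k hk.1).2.trans hk.2⟩
        · intro k hk
          rw [Finset.mem_filter] at hk ⊢
          exact ⟨(hsw k hk.1).1, (hsw k hk.1).2.trans hk.2⟩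
        · intro k _
          exact swap_swap_app p q k
        · intro k _
          exact swap_swap_app p q k
        · intro k _
          rw [← Module.End.mul_apply, ← map_mul, mul_swap_eq_swap_mul,
            swap_apply_of_ne_of_ne (hDne p hp).symm (hDne q hq).symm, map_mul,
            Module.End.mul_apply, h3 p hp q hq hf]
      -- invariance for the transpositions of `p₀` and an index of the colour `i`
      have key2 : ∀ p ∈ D, f p = i →
          ρ (swap p p₀) (x + ∑ k ∈ D with f k = i, ρ (swap k p₀) x) =
            x + ∑ k ∈ D with f k = i, ρ (swap k p₀) x := by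
        intro p hp hf
        have hpm : p ∈ D.filter (fun k => f k = i) := Finset.mem_filter.2 ⟨hp, hf⟩
        rw [map_add, map_sum, ← Finset.add_sum_erase _ _ hpm]
        have e2 : ∀ k ∈ (D.filter (fun k => f k = i)).erase p,
            ρ (swap p p₀) (ρ (swap k p₀) x) = ρ (swap k p₀) x := by
          intro k hk
          rw [Finset.mem_erase, Finset.mem_filter] at hk
          rw [← Module.End.mul_apply, ← map_mul, swap_mul_eq_mul_swap, swap_inv,
            swap_apply_of_ne_of_ne hk.1.symm (hDne p hp), swap_apply_right, map_mul,
            Module.End.mul_apply, h3 p hp k hk.2.1 (by rw [hf, hk.2.2])]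
        rw [Finset.sum_congr rfl e2, ← Module.End.mul_apply, ← map_mul, swap_mul_self, map_one,
          Module.End.one_apply, ← Finset.add_sum_erase (D.filter (fun k => f k = i))
            (fun k => ρ (swap k p₀) x) hpm]
        abel
      refine ⟨Function.update f p₀ i, ?_, ?_⟩
      · intro p hp
        rw [Finset.mem_insert] at hp
        rcases hp with rfl | hp
        · rw [Function.update_self]
          exact Finset.mem_range.1 hi
        · rw [Function.update_of_ne (hDne p hp)]
          exact h2 p hp
      · intro p hp q hq hf
        rw [Finset.mem_insert] at hp hq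
        rcases hp with rfl | hp
        · rcases hq with rfl | hq
          · rw [swap_self]
            change ρ 1 _ = _
            rw [map_one]
            rfl
          · rw [Function.update_self, Function.update_of_ne (hDne q hq)] at hf
            rw [swap_comm]
            exact key2 q hq hf.symm
        · rcases hq with rfl | hq
          · rw [Function.update_self, Function.update_of_ne (hDne p hp)] at hf
            exact key2 p hp hf
          · rw [Function.update_of_ne (hDne p hp), Function.update_of_ne (hDne q hq)] at hf
            exact key1 p hp q hq hf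
  | zero => simp
  | add x y _ _ hx hy =>
    have := Submodule.add_mem _ hx hy
    simp only [map_add, Finset.sum_add_distrib, smul_add]
    convert this using 1
    abel
  | smul q x _ hx =>
    have := Submodule.smul_mem _ q hx
    rw [smul_add, Finset.smul_sum, smul_comm] at this
    simpa only [map_smul] using this

/-- The relations satisfied by all Jucys-Murphy elements. -/
lemma jm_mem' {N : Submodule ℚ X} (hN : ∀ π : Perm κ, ∀ x ∈ N, ρ π x ∈ N) {c : ℕ}
    {D : Finset κ} {p₀ : κ} (hp₀ : p₀ ∉ D) (hle : N ≤ colSpan ρ N c D) {x : X} (hx : x ∈ N)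
    {p : κ} (hp : p ∈ insert p₀ D) :
    ∑ k ∈ (insert p₀ D).erase p, ρ (swap p k) x + (c : ℚ) • x ∈
      colSpan ρ N c (insert p₀ D) := by
  have hcomm : ∀ (p : κ) (S : Finset κ), ∑ k ∈ S, ρ (swap p k) x = ∑ k ∈ S, ρ (swap k p) x :=
    fun p S => Finset.sum_congr rfl fun k _ => by rw [swap_comm]
  by_cases h : p = p₀
  · subst h
    rw [Finset.erase_insert hp₀, hcomm]
    exact jm_mem hN hp₀ (hle hx)
  · have hpD : p ∈ D := Finset.mem_of_mem_insert_of_ne hp h
    have h1 := jm_mem hN hp₀ (hle (hN (swap p p₀) x hx))
    have hst : ∀ k, k ∈ insert p₀ D → (swap p p₀)⁻¹ k ∈ insert p₀ D := by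
      intro k hk
      rw [swap_inv]
      by_cases h2 : k = p
      · rw [h2, swap_apply_left]
        exact Finset.mem_insert_self _ _
      · by_cases h3 : k = p₀
        · rw [h3, swap_apply_right]
          exact hp
        · rw [swap_apply_of_ne_of_ne h2 h3]
          exact hk
    have h2 := colSpan_stable hN hst h1
    rw [map_add, map_sum, map_smul, ← Module.End.mul_apply (ρ (swap p p₀)) (ρ (swap p p₀)),
      ← map_mul, swap_mul_self, map_one, Module.End.one_apply] at h2
    rw [hcomm]
    convert h2 using 2
    symm
    refine Finset.sum_nbij' (fun k => swap p p₀ k) (fun k => swap p p₀ k) ?_ ?_ ?_ ?_ ?_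
    · intro k hk
      rw [Finset.mem_erase]
      refine ⟨fun h3 => ?_, ?_⟩
      · have h4 : k = p₀ := by
          have := congrArg (swap p p₀) h3
          rwa [swap_swap_app, swap_apply_left] at this
        exact hp₀ (h4 ▸ hk)
      · have := hst k (Finset.mem_insert_of_mem hk)
        rwa [swap_inv] at this
    · intro k hk
      rw [Finset.mem_erase] at hk
      have h3 := hst k hk.2
      rw [swap_inv] at h3
      refine Finset.mem_of_mem_insert_of_ne h3 fun h4 => hk.1 ?_
      have := congrArg (swap p p₀) h4
      rwa [swap_swap_app, swap_apply_right] at this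
    · intro k _
      exact swap_swap_app p p₀ k
    · intro k _
      exact swap_swap_app p p₀ k
    · intro k _
      rw [← Module.End.mul_apply, ← map_mul, ← Module.End.mul_apply, ← map_mul,
        mul_swap_eq_swap_mul (swap p p₀) k p₀, mul_assoc, swap_mul_self, mul_one,
        swap_apply_right]

/-- If the antisymmetrizers over `c + 1` indices vanish on a stable subspace of a representation of
a symmetric group, this subspace is spanned by vectors which are invariant under the Young subgroup
of a colouring of the indices by `c` colours. -/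
theorem le_colSpan {N : Submodule ℚ X} (hN : ∀ π : Perm κ, ∀ x ∈ N, ρ π x ∈ N) {c : ℕ}
    (h0 : ∀ A : Finset κ, A.card = c + 1 → ∀ x ∈ N, anti ρ A x = 0) (D : Finset κ) :
    N ≤ colSpan ρ N c D := by
  induction D using Finset.induction_on with
  | empty =>
    intro x hx
    exact Submodule.subset_span ⟨hx, fun _ => 0, by simp, by simp [Col]⟩
  | insert p₀ D hp₀ ih =>
    set D' := insert p₀ D with hD'
    have hanti : ∀ A : Finset κ, ∀ x ∈ N, anti ρ A x ∈ N := by
      intro A x hx
      exact Submodule.sum_mem _ fun σ _ => Submodule.smul_mem _ _ (hN σ x hx)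
    have key : ∀ (j : ℕ) (A : Finset κ), A ⊆ D' → A.Nonempty → A.card + j = c + 1 →
        ∀ x ∈ N, anti ρ A x ∈ colSpan ρ N c D' := by
      intro j
      induction j with
      | zero =>
        intro A _ _ hA x hx
        rw [h0 A (by simpa using hA) x hx]
        exact Submodule.zero_mem _
      | succ j ihj =>
        intro A hAD hne hA x hx
        set y := anti ρ A x with hy
        have hyN : y ∈ N := hanti A x hx
        have h3 : ∑ p ∈ A, (∑ k ∈ D'.erase p, ρ (swap p k) y + (c : ℚ) • y) ∈
            colSpan ρ N c D' :=
          Submodule.sum_mem _ fun p hp => jm_mem' hN hp₀ ih hyN (hAD hp)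
        have h4 : ∀ p ∈ A, ∑ k ∈ D'.erase p, ρ (swap p k) y =
            -((A.card : ℚ) - 1) • y + ∑ k ∈ D' \ A, ρ (swap p k) y := by
          intro p hp
          have h5 : D'.erase p = (A.erase p) ∪ (D' \ A) := by
            ext k
            simp only [Finset.mem_erase, Finset.mem_union, Finset.mem_sdiff]
            constructor
            · intro hk
              by_cases hkA : k ∈ A
              · exact Or.inl ⟨hk.1, hkA⟩
              · exact Or.inr ⟨hk.2, hkA⟩
            · rintro (⟨hk, hk'⟩ | ⟨hk, hk'⟩)
              · exact ⟨hk, hAD hk'⟩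
              · refine ⟨?_, hk⟩
                rintro rfl
                exact hk' hp
          have h6 : Disjoint (A.erase p) (D' \ A) := by
            rw [Finset.disjoint_left]
            intro k hk hk'
            rw [Finset.mem_sdiff] at hk'
            exact hk'.2 (Finset.mem_of_mem_erase hk)
          rw [h5, Finset.sum_union h6]
          congr 1
          have h7 : ∀ k ∈ A.erase p, ρ (swap p k) y = -y := by
            intro k hk
            exact anti_swap ρ A x hp (Finset.mem_of_mem_erase hk) (Finset.ne_of_mem_erase hk).symm
          rw [Finset.sum_congr rfl h7, Finset.sum_const, Finset.card_erase_of_mem hp]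
          have h8 : 1 ≤ A.card := Finset.card_pos.2 hne
          rw [← Nat.cast_smul_eq_nsmul ℚ, Nat.cast_sub h8, Nat.cast_one]
          simp only [smul_neg, neg_smul]
        have h5 : ∀ k ∈ D' \ A, ∑ p ∈ A, ρ (swap p k) y = y - anti ρ (insert k A) x := by
          intro k hk
          rw [Finset.mem_sdiff] at hk
          rw [anti_insert ρ A x hk.2]
          abel
        have h6 : ∑ p ∈ A, (∑ k ∈ D'.erase p, ρ (swap p k) y + (c : ℚ) • y) =
            ((A.card : ℚ) * ((c : ℚ) + 1 - A.card) + ((D' \ A).card : ℚ)) • y -
              ∑ k ∈ D' \ A, anti ρ (insert k A) x := by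
          rw [Finset.sum_add_distrib, Finset.sum_congr rfl h4, Finset.sum_add_distrib,
            Finset.sum_comm (s := A) (t := D' \ A), Finset.sum_congr rfl h5,
            Finset.sum_sub_distrib]
          simp only [Finset.sum_const, ← Nat.cast_smul_eq_nsmul ℚ]
          module
        rw [h6] at h3
        have h7 : ∑ k ∈ D' \ A, anti ρ (insert k A) x ∈ colSpan ρ N c D' := by
          refine Submodule.sum_mem _ fun k hk => ?_
          rw [Finset.mem_sdiff] at hk
          refine ihj (insert k A) (Finset.insert_subset hk.1 hAD) (Finset.insert_nonempty _ _) ?_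
            x hx
          rw [Finset.card_insert_of_notMem hk.2]
          omega
        have h8 := Submodule.add_mem _ h3 h7
        rw [sub_add_cancel] at h8
        have h9 : ((A.card : ℚ) * ((c : ℚ) + 1 - A.card) + ((D' \ A).card : ℚ)) ≠ 0 := by
          have h10 : 1 ≤ A.card := Finset.card_pos.2 hne
          have h11 : A.card ≤ c + 1 := by omega
          have h12 : ((A.card : ℚ) * ((c : ℚ) + 1 - A.card) + ((D' \ A).card : ℚ)) =
              ((A.card * (c + 1 - A.card) + (D' \ A).card : ℕ) : ℚ) := by
            rw [Nat.cast_add, Nat.cast_mul, Nat.cast_sub h11]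
            push_cast
            ring
          rw [h12, Nat.cast_ne_zero]
          have h13 : 1 ≤ c + 1 - A.card := by omega
          have h14 : 1 ≤ A.card * (c + 1 - A.card) := Nat.mul_pos h10 h13
          omega
        have h10 := Submodule.smul_mem _
          (((A.card : ℚ) * ((c : ℚ) + 1 - A.card) + ((D' \ A).card : ℚ)))⁻¹ h8
        rwa [smul_smul, inv_mul_cancel₀ h9, one_smul] at h10
    intro x hx
    have h3 := key c {p₀} (by simp [hD']) (Finset.singleton_nonempty _) (by
      rw [Finset.card_singleton]
      omega) x hx
    have h4 : anti ρ {p₀} x = x := by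
      unfold anti
      have h5 : permsOf ({p₀} : Finset κ) = {1} := by
        ext σ
        rw [mem_permsOf, Finset.mem_singleton]
        constructor
        · intro h
          ext k
          rw [Perm.one_apply]
          by_cases hk : k = p₀
          · subst hk
            by_contra h6
            have h7 : σ (σ k) = σ k := h (σ k) (by
              rw [Finset.mem_singleton]
              exact h6)
            exact h6 (σ.injective h7)
          · exact h k (by
              rw [Finset.mem_singleton]
              exact hk)
        · rintro rfl k _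
          rfl
      rw [h5, Finset.sum_singleton, Perm.sign_one, Units.val_one, Int.cast_one, one_smul, map_one]
      rfl
    rwa [h4] at h3

end Pool.Agent.N164.VZ
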