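import Pool.Agent.Y152.AS.Defs

/-!
# Voisin's conjecture on zero-cycles of surfaces whose Albanese kernel is generated by products of
divisor classes: definitions
-/

set_option autoImplicit false

open CategoryTheory AlgebraicGeometry

universe u v

namespace Pool.Agent.N164.VZ

open Pool.Agent.H914 Pool.Agent.H914.VarClass Pool.Agent.H914.VarClass.Obj Pool.Agent.W492.BB
  Pool.Agent.W550.Corr Pool.Agent.TH133 Pool.Agent.Y152.AS

variable {k : Type u} [Field k] {𝒱 : VarClass k} (C : TheoryData.{u, v, 0} 𝒱 ℚ)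

/-- The class `∑_σ x_1^*(a_{σ(1)}) ⋯ x_n^*(a_{σ(n)})` on `W`, where `x_1, …, x_n` are morphisms
`W → Y`. If `W = Y^n` and the `x_i` are the projections it is `∑_σ a_{σ(1)} × ⋯ × a_{σ(n)}`. -/
noncomputable def symProduct {Y W : 𝒱.Obj} {n : ℕ} (a : Fin n → C.A Y) (x : Fin n → (W ⟶ Y)) :
    C.A W :=
  ∑ σ : Equiv.Perm (Fin n), (List.ofFn fun i => C.up (x i) (a (σ i))).prod

/-- The class `∑_σ sgn(σ) x_1^*(a_{σ(1)}) ⋯ x_n^*(a_{σ(n)})` on `W`, where `x_1, …, x_n` are
morphisms `W → S`. If `W = S^n` and the `x_i` are the projections it is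
`∑_σ sgn(σ) a_{σ(1)} × ⋯ × a_{σ(n)}`. -/
noncomputable def altProduct {S W : 𝒱.Obj} {n : ℕ} (a : Fin n → C.A S) (x : Fin n → (W ⟶ S)) :
    C.A W :=
  ∑ σ : Equiv.Perm (Fin n), (Equiv.Perm.sign σ : ℤ) •
    (List.ofFn fun i => C.up (x i) (a (σ i))).prod

/-- Voisin's assertion for `S` and all `n > d`: the alternating sums
`∑_σ sgn(σ) a_{σ(1)} × ⋯ × a_{σ(n)}` vanish for all `a_1, …, a_n` in the Albanese kernel of `S`. -/
def VoisinAbove (S : 𝒱.Obj) (d : ℕ) : Prop :=
  ∀ n : ℕ, d < n → ∀ a : Fin n → C.A S, (∀ i, InAlbKer C (a i)) →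
    ∀ (W : 𝒱.Obj) (x : Fin n → (W ⟶ S)), altProduct C a x = 0

/-- The space `U` of cycles on `Y` is odd of dimension at most `w`: the symmetrized products
`∑_σ u_{σ(1)} × ⋯ × u_{σ(w+1)}` of `w + 1` elements of `U` vanish. -/
def OddDim {Y : 𝒱.Obj} (U : Submodule ℚ (C.A Y)) (w : ℕ) : Prop :=
  ∀ u : Fin (w + 1) → C.A Y, (∀ i, u i ∈ U) → ∀ (W : 𝒱.Obj) (x : Fin (w + 1) → (W ⟶ Y)),
    symProduct C u x = 0

/-- The zero-cycle class `x` on the curve `T` has the properties of the class of a rational point: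
it has degree one, and its direct image under the diagonal `T → T × T` is `x × x`. -/
structure IsPoint {T : 𝒱.Obj} (x : C.A T) : Prop where
  deg : C.Deg 1 x
  degree : HasDegree C x 1
  diag : C.down (Obj.lift (𝟙 T) (𝟙 T)) x = C.ext x x

/-- `T` is a curve of genus at most `g`, in the form of the following properties of the set `P` of
the classes of its points: `CH^1(T)_ℚ` is spanned by `P`, and the sum of any `g + 1` points is
rationally equivalent to the sum of any given point and of `g` other points (Riemann-Roch). -/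
structure IsCurve (T : 𝒱.Obj) (g : ℕ) : Prop where
  dim_eq : T.dim = 1
  points : ∃ P : Set (C.A T), P.Nonempty ∧ (∀ x ∈ P, IsPoint C x) ∧
    (∀ z, C.Deg 1 z → z ∈ Submodule.span ℚ P) ∧
    ∀ (x : Fin (g + 1) → C.A T) (o : C.A T), (∀ i, x i ∈ P) → o ∈ P →
      ∃ y : Fin g → C.A T, (∀ i, y i ∈ P) ∧ ∑ i, x i = o + ∑ i, y i

/-- The zero-cycles of degree zero on the curve `T`. -/
def zeroCycles (T : 𝒱.Obj) : Submodule ℚ (C.A T) :=
  Submodule.span ℚ {u | C.Deg 1 u ∧ HasDegree C u 0}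

/-- The zero-cycles on the surface `T × T'` are generated by the products of zero-cycles (for
example by the points `(t, t')`). -/
def ProductCycles (T T' : 𝒱.Obj) : Prop :=
  ∀ z : C.A (T.prod T'), C.Deg 2 z → z ∈ Submodule.span ℚ {w | ∃ (x : C.A T) (y : C.A T'),
    C.Deg 1 x ∧ C.Deg 1 y ∧ w = C.ext x y}

/-- The divisor class `D` on the abelian variety `B` is additive: `(x + y)^* D = x^* D + y^* D` for
all morphisms `x, y : W → B` (these are the classes in `Pic^0(B)_ℚ`). -/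
def IsAdditive {B : 𝒱.Obj} [GroupLaw B] (D : C.A B) : Prop :=
  C.Deg 1 D ∧ ∀ (W : 𝒱.Obj) (x y : W ⟶ B), C.up (x + y) D = C.up x D + C.up y D

/-- The pull-back of `Pic^0(B)_ℚ` under the morphism `α : Y → B` to an abelian variety (if `B` is
the Albanese variety of `Y` this is `Pic^0(Y)_ℚ`). -/
def picard {Y B : 𝒱.Obj} [GroupLaw B] (α : Y ⟶ B) : Submodule ℚ (C.A Y) :=
  Submodule.span ℚ {u | ∃ D : C.A B, IsAdditive C D ∧ u = C.up α D}

/-- The odd spaces of divisor classes used below, with their dimensions: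
* the zero-cycles of degree zero on a curve of genus at most `g`, of dimension `g`;
* `α^* Pic^0(B)_ℚ` for a morphism `α : Y → B` to an abelian variety `B`, of dimension `dim B`;
* any space `U` such that the symmetrized products of `w + 1` elements of `U` vanish, of
  dimension `w`. -/
inductive IsOdd : (Y : 𝒱.Obj) → Submodule ℚ (C.A Y) → ℕ → Prop
  | curve (T : 𝒱.Obj) (g : ℕ) (hT : IsCurve C T g) : IsOdd T (zeroCycles C T) g
  | picard (Y B : 𝒱.Obj) [GroupLaw B] (α : Y ⟶ B) : IsOdd Y (picard C α) B.dim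
  | relations (Y : 𝒱.Obj) (U : Submodule ℚ (C.A Y)) (w : ℕ) (hU : OddDim C U w) : IsOdd Y U w

/-- The product `U · U'` of two spaces of cycles on `Y`. -/
def mulSpace {Y : 𝒱.Obj} (U U' : Submodule ℚ (C.A Y)) : Submodule ℚ (C.A Y) :=
  Submodule.span ℚ {w | ∃ u ∈ U, ∃ u' ∈ U', w = C.mul u u'}

/-- The image `b_* (f^* U · f'^* U')`, where `f : Y → Z`, `f' : Y → Z'` are morphisms and `b` is a
correspondence from `Y` to `S`. -/
def piece {S Y Z Z' : 𝒱.Obj} (U : Submodule ℚ (C.A Z)) (U' : Submodule ℚ (C.A Z')) (f : Y ⟶ Z)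
    (f' : Y ⟶ Z') (b : C.A (Y.prod S)) : Submodule ℚ (C.A S) :=
  Submodule.span ℚ {w | ∃ u ∈ U, ∃ u' ∈ U', w = C.act b (C.mul (C.up f u) (C.up f' u'))}

/-- The image `b_* F^2 CH_0(Y)_ℚ` of the Albanese kernel of `Y` under the correspondence `b`. -/
def imageOf {Y S : 𝒱.Obj} (b : C.A (Y.prod S)) : Submodule ℚ (C.A S) :=
  Submodule.span ℚ {w | ∃ z : C.A Y, InAlbKer C z ∧ w = C.act b z}

/-- `IsGenerated C S d M`: the space `M` of cycles on `S` is a sum of pieces of the following form,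
and `d` is the sum of the dimensions of these pieces:
* the images of `f^* U · f'^* U'`, where `U`, `U'` are odd of dimensions `w`, `w'`; the dimension of
  this piece is `w w'`;
* the images of `f^* U · f'^* U`, where `U` is odd of dimension `w` and `f^* u · f'^* u'` and
  `f^* u' · f'^* u` have the same image for all `u, u' ∈ U`; the dimension is `w (w - 1) / 2`;
* the same where the images of `f^* u · f'^* u'` and `f^* u' · f'^* u` are opposite; the dimension
  is `w (w + 1) / 2`;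
* the images of the Albanese kernels of varieties `Y` for which Voisin's assertion holds for all
  `n > d`; the dimension is `d`. -/
inductive IsGenerated (S : 𝒱.Obj) : ℕ → Submodule ℚ (C.A S) → Prop
  | product (Y Z Z' : 𝒱.Obj) (U : Submodule ℚ (C.A Z)) (U' : Submodule ℚ (C.A Z')) (w w' : ℕ)
      (hU : IsOdd C Z U w) (hU' : IsOdd C Z' U' w') (f : Y ⟶ Z) (f' : Y ⟶ Z')
      (b : C.A (Y.prod S)) : IsGenerated S (w * w') (piece C U U' f f' b)
  | symm (Y Z : 𝒱.Obj) (U : Submodule ℚ (C.A Z)) (w : ℕ) (hU : IsOdd C Z U w) (f f' : Y ⟶ Z)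
      (b : C.A (Y.prod S)) (hb : ∀ u ∈ U, ∀ u' ∈ U, C.act b (C.mul (C.up f u) (C.up f' u')) =
        C.act b (C.mul (C.up f u') (C.up f' u))) :
      IsGenerated S (w.choose 2) (piece C U U f f' b)
  | antisymm (Y Z : 𝒱.Obj) (U : Submodule ℚ (C.A Z)) (w : ℕ) (hU : IsOdd C Z U w) (f f' : Y ⟶ Z)
      (b : C.A (Y.prod S)) (hb : ∀ u ∈ U, ∀ u' ∈ U, C.act b (C.mul (C.up f u) (C.up f' u')) =
        -C.act b (C.mul (C.up f u') (C.up f' u))) :
      IsGenerated S ((w + 1).choose 2) (piece C U U f f' b)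
  | known (Y : 𝒱.Obj) (d : ℕ) (hY : VoisinAbove C Y d) (b : C.A (Y.prod S)) :
      IsGenerated S d (imageOf C b)
  | sup (d d' : ℕ) (M M' : Submodule ℚ (C.A S)) (h : IsGenerated S d M)
      (h' : IsGenerated S d' M') : IsGenerated S (d + d') (M ⊔ M')

/-- The morphism `f : Y → S` between varieties of the same dimension is dominant. -/
def Dominates {Y S : 𝒱.Obj} (f : Y ⟶ S) : Prop :=
  Y.dim = S.dim ∧ ∃ q : ℚ, q ≠ 0 ∧ C.down f 1 = q • (1 : C.A S)

end Pool.Agent.N164.VZ
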