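import Pool.Agent.N164.VZ.Alt

/-!
# The Albanese kernel of a product of two curves; the main theorems
-/

set_option autoImplicit false

open CategoryTheory AlgebraicGeometry

universe u v w

namespace Pool.Agent.N164.VZ

open Pool.Agent.H914 Pool.Agent.H914.VarClass Pool.Agent.H914.VarClass.Obj Pool.Agent.W492.BB
  Pool.Agent.W550.Corr Pool.Agent.TH133 Pool.Agent.TH829.Prime Pool.Agent.TH829.Kim
  Pool.Agent.Y152.AS Pool.Agent.X308.V

set_option linter.unusedSectionVars false

variable {k : Type u} [Field k] {𝒱 : VarClass k}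

section chow

variable {C : TheoryData.{u, v, 0} 𝒱 ℚ} [hC : IsChowProj C] {T T' S X Y Z Z' W V : 𝒱.Obj}

include hC

/-- The products of zero-cycles of degree zero on the curves `T` and `T'`. -/
def prodSet (C : TheoryData.{u, v, 0} 𝒱 ℚ) (T T' : 𝒱.Obj) : Set (C.A (T.prod T')) :=
  {z | ∃ u ∈ zeroCycles C T, ∃ u' ∈ zeroCycles C T', z = C.mul (C.up (fst T T') u)
    (C.up (snd T T') u')}

lemma push_ext_fst {x : C.A X} {y : C.A Y} {q : ℚ} (hy : HasDegree C y q) :
    C.push (fst X Y) (C.ext x y) = q • x := by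
  rw [TheoryData.ext, C.proj_left, (hy X).2, mul_smul_comm, mul_one]

lemma push_ext_snd {x : C.A X} {y : C.A Y} {q : ℚ} (hx : HasDegree C x q) :
    C.push (snd X Y) (C.ext x y) = q • y := by
  rw [TheoryData.ext, C.proj_right, (hx Y).1, smul_mul_assoc, one_mul]

/-- The external product as a bilinear map. -/
noncomputable def extB (C : TheoryData.{u, v, 0} 𝒱 ℚ) (X Y : 𝒱.Obj) :
    C.A X →ₗ[ℚ] C.A Y →ₗ[ℚ] C.A (X.prod Y) :=
  LinearMap.mk₂ ℚ C.ext
    (fun a b c => by rw [TheoryData.ext, map_add, add_mul]; rfl)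
    (fun q a c => by rw [TheoryData.ext, map_smul, smul_mul_assoc]; rfl)
    (fun a b c => by rw [TheoryData.ext, map_add, mul_add]; rfl)
    (fun q a c => by rw [TheoryData.ext, map_smul, mul_smul_comm]; rfl)

omit hC in
lemma extB_apply (x : C.A X) (y : C.A Y) : extB C X Y x y = C.ext x y := rfl

/-- Graphs of morphisms to curves act trivially on the Albanese kernel. -/
lemma push_albKer {z : C.A X} (hz : InAlbKer C z) (f : X ⟶ T) (hT : T.dim = 1) :
    C.push f z = 0 := by
  have h1 : C.Deg 1 (C.graph f) := by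
    have h := C.push_mem (Obj.lift (𝟙 X) f) (C.one_mem X)
    have e1 : (0 : ℤ) + 1 * (((X.prod T).dim : ℤ) - (X.dim : ℤ)) = 1 := by
      rw [dim_prod, hT]; push_cast; ring
    rwa [e1] at h
  have h2 := hz.act_eq_zero T (C.graph f) h1
  rwa [C.act_graph] at h2

/-- The Albanese kernel of a product of two curves is spanned by the products of zero-cycles of
degree zero. -/
lemma albKer_le {g g' : ℕ} (hT : IsCurve C T g) (hT' : IsCurve C T' g')
    (hP : ProductCycles C T T') {z : C.A (T.prod T')} (hz : InAlbKer C z) :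
    z ∈ Submodule.span ℚ (prodSet C T T') := by
  obtain ⟨o, ho, ho'⟩ := hC.exists_deg_one T
  obtain ⟨o', ho1, ho1'⟩ := hC.exists_deg_one T'
  rw [hT.dim_eq] at ho
  rw [hT'.dim_eq] at ho1
  have hod : HasDegree C o 1 := fun Z => ⟨by rw [one_smul]; exact ho'.2 Z, by
    rw [one_smul]; exact ho'.1 Z⟩
  have hod' : HasDegree C o' 1 := fun Z => ⟨by rw [one_smul]; exact ho1'.2 Z, by
    rw [one_smul]; exact ho1'.1 Z⟩
  -- the projection to the span
  have key : ∀ z ∈ Submodule.span ℚ {w : C.A (T.prod T') | ∃ (x : C.A T) (y : C.A T'),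
      C.Deg 1 x ∧ C.Deg 1 y ∧ w = C.ext x y}, ∃ q : ℚ, HasDegree C z q ∧
      z - C.ext (C.push (fst T T') z) o' - C.ext o (C.push (snd T T') z) + q • C.ext o o' ∈
        Submodule.span ℚ (prodSet C T T') := by
    intro z hz
    induction hz using Submodule.span_induction with
    | mem z hz =>
      obtain ⟨x, y, hx, hy, rfl⟩ := hz
      obtain ⟨q, hq⟩ := exists_hasDegree (C := C) (x := x) (by rw [hT.dim_eq]; exact hx)
      obtain ⟨r, hr⟩ := exists_hasDegree (C := C) (x := y) (by rw [hT'.dim_eq]; exact hy)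
      refine ⟨q * r, hasDegree_ext hq hr, Submodule.subset_span
        ⟨x - q • o, Submodule.subset_span ⟨?_, ?_⟩, y - r • o',
          Submodule.subset_span ⟨?_, ?_⟩, ?_⟩⟩
      · exact Submodule.sub_mem _ hx (Submodule.smul_mem _ _ ho)
      · have := HasDegree.add hq (HasDegree.smul (-q) hod)
        convert this using 1
        · rw [neg_smul, sub_eq_add_neg]
        · ring
      · exact Submodule.sub_mem _ hy (Submodule.smul_mem _ _ ho1)
      · have := HasDegree.add hr (HasDegree.smul (-r) hod')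
        convert this using 1
        · rw [neg_smul, sub_eq_add_neg]
        · ring
      · rw [push_ext_fst hr, push_ext_snd hq]
        change _ = C.ext (x - q • o) (y - r • o')
        simp only [← extB_apply, map_sub, map_smul, LinearMap.sub_apply, LinearMap.smul_apply]
        module
    | zero =>
      refine ⟨0, hasDegree_zero, ?_⟩
      simp only [← extB_apply, map_zero, LinearMap.zero_apply, zero_smul, sub_zero, add_zero]
      exact Submodule.zero_mem _
    | add z w _ _ hz hw =>
      obtain ⟨q, hq, hq'⟩ := hz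
      obtain ⟨r, hr, hr'⟩ := hw
      refine ⟨q + r, HasDegree.add hq hr, ?_⟩
      have := Submodule.add_mem _ hq' hr'
      convert this using 1
      simp only [← extB_apply, map_add, LinearMap.add_apply, add_smul]
      abel
    | smul c z _ hz =>
      obtain ⟨q, hq, hq'⟩ := hz
      refine ⟨c * q, HasDegree.smul c hq, ?_⟩
      have := Submodule.smul_mem _ c hq'
      convert this using 1
      simp only [← extB_apply, map_smul, LinearMap.smul_apply, smul_sub, smul_add, mul_smul]
  have hdim : ((T.prod T').dim : ℤ) = 2 := by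
    rw [dim_prod, hT.dim_eq, hT'.dim_eq]; norm_num
  have hzd : C.Deg 2 z := by
    have := hz.deg
    rwa [hdim] at this
  obtain ⟨q, hq, hq'⟩ := key z (hP z hzd)
  have h1 : C.push (fst T T') z = 0 := push_albKer hz _ hT.dim_eq
  have h2 : C.push (snd T T') z = 0 := push_albKer hz _ hT'.dim_eq
  have h3 : q • C.ext o o' = 0 := by
    have h4 := hasDegree_push (fst T T') hq
    rw [h1] at h4
    have := smul_of_degree h4 hasDegree_zero (C.ext o o')
    rwa [sub_zero] at this
  rw [h1, h2, h3] at hq'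
  simpa only [← extB_apply, map_zero, LinearMap.zero_apply, sub_zero, add_zero] using hq'

/-- The image of the span of a set of products is contained in the piece. -/
lemma mem_piece {U : Submodule ℚ (C.A Z)} {U' : Submodule ℚ (C.A Z')} {f : Y ⟶ Z} {f' : Y ⟶ Z'}
    (b : C.A (Y.prod S)) {z : C.A Y}
    (hz : z ∈ Submodule.span ℚ {z | ∃ u ∈ U, ∃ u' ∈ U', z = C.mul (C.up f u) (C.up f' u')}) :
    C.act b z ∈ piece C U U' f f' b := by
  have h2 : C.act b z ∈ (Submodule.span ℚ
      {z | ∃ u ∈ U, ∃ u' ∈ U', z = C.mul (C.up f u) (C.up f' u')}).map (C.actL b) := ⟨z, hz, rfl⟩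
  rw [Submodule.map_span] at h2
  refine Submodule.span_mono ?_ h2
  rintro w ⟨z, ⟨u, hu, u', hu', rfl⟩, rfl⟩
  exact ⟨u, hu, u', hu', rfl⟩

lemma piece_le (U : Submodule ℚ (C.A Z)) (U' : Submodule ℚ (C.A Z')) (f : Y ⟶ Z) (f' : Y ⟶ Z')
    (b : C.A (Y.prod S)) : piece C U U' f f' b ≤ Submodule.span ℚ
      {w | ∃ z ∈ {z | ∃ u ∈ U, ∃ u' ∈ U', z = C.mul (C.up f u) (C.up f' u')}, w = C.act b z} := by
  refine Submodule.span_mono ?_
  rintro w ⟨u, hu, u', hu', rfl⟩
  exact ⟨_, ⟨u, hu, u', hu', rfl⟩, rfl⟩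

lemma piece_sym_le (s : Bool) (U : Submodule ℚ (C.A Z)) (f f' : Y ⟶ Z) (b : C.A (Y.prod S))
    (hb : ∀ u ∈ U, ∀ u' ∈ U, C.act b (C.mul (C.up f u) (C.up f' u')) =
      (if s = true then (-1 : ℚ) else 1) • C.act b (C.mul (C.up f u') (C.up f' u))) :
    piece C U U f f' b ≤ Submodule.span ℚ {w | ∃ z ∈ symSet C s U f f', w = C.act b z} := by
  rw [piece, Submodule.span_le]
  rintro w ⟨u, hu, u', hu', rfl⟩
  have h1 : C.act b (C.mul (C.up f u) (C.up f' u') +
      (if s = true then (-1 : ℚ) else 1) • C.mul (C.up f u') (C.up f' u)) =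
      (2 : ℚ) • C.act b (C.mul (C.up f u) (C.up f' u')) := by
    rw [act_map_add, act_map_smul, ← hb u hu u' hu', two_smul]
  have h2 : C.act b (C.mul (C.up f u) (C.up f' u')) = (1 / 2 : ℚ) • C.act b
      (C.mul (C.up f u) (C.up f' u') +
        (if s = true then (-1 : ℚ) else 1) • C.mul (C.up f u') (C.up f' u)) := by
    rw [h1, smul_smul]
    norm_num
  rw [h2]
  exact Submodule.smul_mem _ _ (Submodule.subset_span ⟨_, ⟨u, hu, u', hu', rfl⟩, rfl⟩)

/-- The alternating sums of products of `d + 1` elements of a space of cycles generated by pieces of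
total dimension `d` vanish. -/
theorem IsGenerated.altN {d : ℕ} {M : Submodule ℚ (C.A S)} (h : IsGenerated C S d M) :
    AltN C M (d + 1) := by
  induction h with
  | product Y Z Z' U U' w w' hU hU' f f' b =>
    exact (AltN.image b _ (fun z hz W y => alt_prod hU.oddDim hU'.oddDim f f' z hz y)).mono
      (piece_le U U' f f' b)
  | symm Y Z U w hU f f' b hb =>
    exact (AltN.image b (symSet C false U f f') (fun z hz W y =>
      alt_sym false hU.oddDim f f' (by simp [pairs]) z hz y)).mono
      (piece_sym_le false U f f' b (by simpa using hb))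
  | antisymm Y Z U w hU f f' b hb =>
    exact (AltN.image b (symSet C true U f f') (fun z hz W y =>
      alt_sym true hU.oddDim f f' (by simp [pairs]) z hz y)).mono
      (piece_sym_le true U f f' b (by simpa using hb))
  | known Y d hY b =>
    exact AltN.image b {z | InAlbKer C z} (fun z hz W y => by
      rw [← altProduct_eq]
      exact hY (d + 1) (Nat.lt_succ_self d) z hz W y)
  | sup d d' M M' _ _ ih ih' => exact ih.sup ih'

/-- Voisin's assertion in all degrees larger than the dimension of the generating pieces. -/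
theorem voisin_of_generated {d : ℕ} {M : Submodule ℚ (C.A S)} (h : IsGenerated C S d M)
    (hM : ∀ α : C.A S, InAlbKer C α → α ∈ M) : VoisinAbove C S d := by
  intro n hn a ha W x
  rw [altProduct_eq]
  exact h.altN.alt a Finset.univ (by rw [Finset.card_univ, Fintype.card_fin]; omega)
    (fun i _ => hM _ (ha i)) x

/-- Pull-backs of elements of the Albanese kernel. -/
lemma albKer_pull {α : C.A S} (hα : InAlbKer C α) (f : Y ⟶ S) (hd : Y.dim = S.dim) :
    InAlbKer C (C.pull f α) where
  deg := by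
    have := C.pull_mem f hα.deg
    rwa [← hd] at this
  act_eq_zero := by
    intro Z D hD
    have e1 : fst Y Z ≫ f = prodMap f (𝟙 Z) ≫ fst S Z := by simp
    have e2 : snd Y Z = prodMap f (𝟙 Z) ≫ snd S Z := by simp
    rw [C.act_apply, ← C.pull_comp, e1, C.pull_comp, e2, C.push_comp, C.proj_right]
    refine hα.act_eq_zero Z (C.push (prodMap f (𝟙 Z)) D) ?_
    have h1 := C.push_mem (prodMap f (𝟙 Z)) hD
    have e3 : (1 : ℤ) + 1 * (((S.prod Z).dim : ℤ) - ((Y.prod Z).dim : ℤ)) = 1 := by
      rw [dim_prod, dim_prod, hd]; push_cast; ring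
    rwa [e3] at h1

/-- The Albanese kernel of a variety dominated by `Y`. -/
lemma albKer_of_dominated {F : Y ⟶ S} (hF : Dominates C F) {α : C.A S} (hα : InAlbKer C α) :
    ∃ z : C.A Y, InAlbKer C z ∧ ∃ q : ℚ, α = q • C.act (C.graph F) z := by
  obtain ⟨hd, q, hq, hf⟩ := hF
  refine ⟨C.pull F α, albKer_pull hα F hd, q⁻¹, ?_⟩
  rw [C.act_graph]
  have h1 := C.proj_right F 1 α
  have h2 : C.push F 1 = q • (1 : C.A S) := hf
  rw [one_mul, h2, smul_mul_assoc, one_mul] at h1
  rw [h1, smul_smul, inv_mul_cancel₀ hq, one_smul]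

/-- Varieties dominated by a variety whose Albanese kernel is generated by products. -/
lemma dominated_piece {U : Submodule ℚ (C.A Z)} {U' : Submodule ℚ (C.A Z')} {f : Y ⟶ Z}
    {f' : Y ⟶ Z'} (hY : ∀ z, InAlbKer C z → z ∈ Submodule.span ℚ
      {z | ∃ u ∈ U, ∃ u' ∈ U', z = C.mul (C.up f u) (C.up f' u')})
    {F : Y ⟶ S} (hF : Dominates C F) (α : C.A S) (hα : InAlbKer C α) :
    α ∈ piece C U U' f f' (C.graph F) := by
  obtain ⟨z, hz, q, hq⟩ := albKer_of_dominated hF hα
  rw [hq]
  exact Submodule.smul_mem _ _ (mem_piece _ (hY z hz))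

/-- Surfaces dominated by a product of two curves. -/
theorem voisin_of_product {g g' : ℕ} (hT : IsCurve C T g) (hT' : IsCurve C T' g')
    (hP : ProductCycles C T T') (F : T.prod T' ⟶ S) (hF : Dominates C F) :
    VoisinAbove C S (g * g') :=
  voisin_of_generated (IsGenerated.product (T.prod T') T T' _ _ g g' (IsOdd.curve T g hT) (IsOdd.curve T' g' hT')
    (fst T T') (snd T T') (C.graph F))
    (dominated_piece (fun _ hz => albKer_le hT hT' hP hz) hF)

/-- Surfaces dominated by a symmetric square of a curve. -/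
theorem voisin_of_symmetric {g : ℕ} (hT : IsCurve C T g) (hP : ProductCycles C T T)
    (F : T.prod T ⟶ S) (hsym : sw T T ≫ F = F) (hF : Dominates C F) :
    VoisinAbove C S (g.choose 2) := by
  refine voisin_of_generated (IsGenerated.symm (T.prod T) T _ g (IsOdd.curve T g hT)
    (fst T T) (snd T T) (C.graph F) ?_)
    (dominated_piece (fun _ hz => albKer_le hT hT hP hz) hF)
  intro u _ u' _
  rw [C.act_graph, C.act_graph]
  change C.push F (C.ext u u') = C.push F (C.ext u' u)
  have h1 : C.ext u' u = C.pull (sw T T) (C.ext u u') := (tp_ext u u').symm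
  rw [h1, pull_iso C (sw T T) (sw T T) sw_sw sw_sw, ← C.push_comp, hsym]

/-- Varieties dominated by a variety whose Albanese kernel is generated by the products of two
elements of the Picard variety. -/
theorem voisin_of_picard {B : 𝒱.Obj} [GroupLaw B] (α : Y ⟶ B)
    (hY : ∀ z, InAlbKer C z → z ∈ mulSpace C (picard C α) (picard C α)) (F : Y ⟶ S)
    (hF : Dominates C F) : VoisinAbove C S (B.dim.choose 2) := by
  refine voisin_of_generated (IsGenerated.symm Y Y _ B.dim (IsOdd.picard Y B α)
    (𝟙 Y) (𝟙 Y) (C.graph F) ?_) (dominated_piece (fun z hz => ?_) hF)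
  · intro u _ u' _
    have h1 : C.mul (C.up (𝟙 Y) u) (C.up (𝟙 Y) u') = C.mul (C.up (𝟙 Y) u') (C.up (𝟙 Y) u) :=
      mul_comm _ _
    rw [h1]
  · refine Submodule.span_mono ?_ (hY z hz)
    rintro z ⟨u, hu, u', hu', rfl⟩
    refine ⟨u, hu, u', hu', ?_⟩
    have e1 : C.up (𝟙 Y) u = u := C.pull_id u
    have e2 : C.up (𝟙 Y) u' = u' := C.pull_id u'
    rw [e1, e2]

end chow

end Pool.Agent.N164.VZ
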