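import Pool.Agent.N164.VZ.TypeI
import Pool.Agent.N164.VZ.Colour

/-!
# Alternating sums over pairs of indices
-/

set_option autoImplicit false

namespace Pool.Agent.N164.VZ

open Equiv Finset Pool.Agent.X308.V Pool.Agent.H204R3.SP

section rt

variable {κ : Type*} [Fintype κ] [DecidableEq κ]

/-- The signed right translations of the functions on the symmetric group. -/
def rt (M : Type*) [AddCommGroup M] [Module ℚ M] : Representation ℚ (Perm κ) (Perm κ → M) where
  toFun g :=
    { toFun := fun F θ => sg true g • F (θ * g)
      map_add' := fun F G => by funext θ; simp [smul_add]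
      map_smul' := fun q F => by funext θ; simp [smul_comm q] }
  map_one' := by
    ext F θ
    simp [sg_one]
  map_mul' g h := by
    ext F θ
    simp [sg_mul, mul_smul, mul_assoc]

variable {M : Type*} [AddCommGroup M] [Module ℚ M]

lemma rt_apply (g θ : Perm κ) (F : Perm κ → M) : rt M g F θ = sg true g • F (θ * g) := rfl

/-- The functions killed by the symmetrizers over `c + 1` indices. -/
def killSub (κ M : Type*) [Fintype κ] [DecidableEq κ] [AddCommGroup M] [Module ℚ M] (c : ℕ) :
    Submodule ℚ (Perm κ → M) where
  carrier := {F | Kills c F}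
  add_mem' := by
    intro F G hF hG B hB u v
    simp only [Pi.add_apply, Finset.sum_add_distrib, hF B hB u v, hG B hB u v, add_zero]
  zero_mem' := by
    intro B _ u v
    simp
  smul_mem' := by
    intro q F hF B hB u v
    simp only [Pi.smul_apply, ← Finset.smul_sum, hF B hB u v, smul_zero]

lemma mem_killSub {c : ℕ} {F : Perm κ → M} : F ∈ killSub κ M c ↔ Kills c F := Iff.rfl

lemma killSub_stable (c : ℕ) (π : Perm κ) (F : Perm κ → M) (hF : F ∈ killSub κ M c) :
    rt M π F ∈ killSub κ M c := by
  rw [mem_killSub] at *
  intro B hB u v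
  simp only [rt_apply, ← Finset.smul_sum, mul_assoc u _ _]
  have h := hF B hB u (v * π)
  have h2 : ∑ τ ∈ supp B, F (u * (τ * v * π)) = 0 := by
    rw [← h]
    apply Finset.sum_congr rfl
    intro τ _
    simp only [mul_assoc]
  rw [h2, smul_zero]

lemma killSub_anti (c : ℕ) (A : Finset κ) (hA : A.card = c + 1) (F : Perm κ → M)
    (hF : F ∈ killSub κ M c) : anti (rt M) A F = 0 := by
  rw [mem_killSub] at hF
  funext θ
  rw [anti, Finset.sum_apply, Pi.zero_apply]
  have h := hF A hA θ 1
  rw [← h]
  apply Finset.sum_congr rfl
  intro σ _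
  rw [Pi.smul_apply, rt_apply, smul_smul, mul_one]
  have h2 : ((Perm.sign σ : ℤ) : ℚ) = sg true σ := by
    rw [sg, if_pos rfl]
  rw [h2, sg_sq, one_smul]

end rt

set_option linter.unusedSectionVars false

section hyp

variable {ι : Type*} [Fintype ι] [DecidableEq ι]

/-- The permutation of the pairs given by a permutation and by the exchanges inside the pairs. -/
def hyp (σ : Perm ι) (ε : ι → Bool) : Perm (ι × Bool) where
  toFun p := (σ p.1, xor p.2 (ε p.1))
  invFun p := (σ.symm p.1, xor p.2 (ε (σ.symm p.1)))
  left_inv p := by
    obtain ⟨i, b⟩ := p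
    simp
  right_inv p := by
    obtain ⟨i, b⟩ := p
    simp

lemma hyp_apply (σ : Perm ι) (ε : ι → Bool) (p : ι × Bool) :
    hyp σ ε p = (σ p.1, xor p.2 (ε p.1)) := rfl

lemma hyp_mul (σ τ : Perm ι) (ε η : ι → Bool) :
    hyp σ ε * hyp τ η = hyp (σ * τ) (fun i => xor (η i) (ε (τ i))) := by
  ext1 p
  obtain ⟨i, b⟩ := p
  simp [hyp_apply, Perm.mul_apply]

variable {M : Type*} [AddCommGroup M] [Module ℚ M]

/-- The character of the exchanges inside the pairs: it is trivial if `s = false`, and it maps every
exchange to `-1` if `s = true`. -/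
def chi (s : Bool) (ε : ι → Bool) : ℚ := ∏ i, if (s && ε i) = true then -1 else 1

lemma chi_false (ε : ι → Bool) : chi false ε = 1 := by simp [chi]

lemma chi_xor (s : Bool) (ε η : ι → Bool) (τ : Perm ι) :
    chi s (fun i => xor (η i) (ε (τ i))) = chi s η * chi s ε := by
  unfold chi
  rw [← Equiv.prod_comp τ (fun i => if (s && ε i) = true then (-1 : ℚ) else 1),
    ← Finset.prod_mul_distrib]
  apply Finset.prod_congr rfl
  intro i _
  beta_reduce
  generalize η i = a
  generalize ε (τ i) = b
  cases s <;> cases a <;> cases b <;> simp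

lemma chi_sq (s : Bool) (ε : ι → Bool) : chi s ε * chi s ε = 1 := by
  unfold chi
  rw [← Finset.prod_mul_distrib]
  apply Finset.prod_eq_one
  intro i _
  split_ifs <;> simp

lemma chi_two (s δ : Bool) (k l : ι) (hkl : k ≠ l) :
    chi s (fun j => (decide (j = k) || decide (j = l)) && δ) = 1 := by
  unfold chi
  cases s
  · simp
  · cases δ
    · simp
    · have h : ∀ i : ι, (if (true && ((decide (i = k) || decide (i = l)) && true)) = true then
          (-1 : ℚ) else 1) = (if i = k then -1 else 1) * (if i = l then -1 else 1) := by
        intro i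
        by_cases h1 : i = k
        · subst h1
          simp [hkl]
        · by_cases h2 : i = l <;> simp [h1, h2, hkl.symm]
      rw [Finset.prod_congr rfl (fun i _ => h i), Finset.prod_mul_distrib]
      simp

/-- The alternating sum over the permutations of the pairs. -/
def gam (s : Bool) (F : Perm (ι × Bool) → M) : M :=
  ∑ σ : Perm ι, ∑ ε : ι → Bool, (sg true σ * chi s ε) • F (hyp σ ε)

lemma gam_mul (s : Bool) (F : Perm (ι × Bool) → M) (τ : Perm ι) (η : ι → Bool) :
    gam s (fun θ => F (θ * hyp τ η)) = (sg true τ * chi s η) • gam s F := by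
  unfold gam
  rw [Finset.smul_sum, ← Equiv.sum_comp (Equiv.mulRight τ) (fun σ => (sg true τ * chi s η) •
    ∑ ε : ι → Bool, (sg true σ * chi s ε) • F (hyp σ ε))]
  apply Finset.sum_congr rfl
  intro σ _
  let e : (ι → Bool) ≃ (ι → Bool) :=
    { toFun := fun ε i => xor (η i) (ε (τ i))
      invFun := fun ε i => xor (η (τ.symm i)) (ε (τ.symm i))
      left_inv := fun ε => by
        funext i
        simp
      right_inv := fun ε => by
        funext i
        simp }
  have h1 : (Equiv.mulRight τ σ : Perm ι) = σ * τ := rfl
  rw [h1, ← Equiv.sum_comp e (fun ε => (sg true (σ * τ) * chi s ε) • F (hyp (σ * τ) ε)),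
    Finset.smul_sum]
  apply Finset.sum_congr rfl
  intro ε _
  dsimp only
  rw [hyp_mul, smul_smul, sg_mul]
  have h2 : sg true τ * chi s η * (sg true σ * sg true τ * chi s (e ε)) =
      sg true σ * chi s ε := by
    have h3 : chi s (e ε) = chi s η * chi s ε := chi_xor s ε η τ
    have h4 := sg_sq true τ
    have h5 := chi_sq s η
    rw [h3]
    linear_combination (sg true σ * chi s ε * (chi s η * chi s η)) * h4 +
      (sg true σ * chi s ε) * h5
  rw [h2]
  rfl

lemma swap_pair (i : ι) : swap (i, false) (i, true) = hyp 1 (fun j => decide (j = i)) := by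
  ext1 p
  obtain ⟨j, b⟩ := p
  by_cases h : j = i
  · subst h
    cases b
    · rw [swap_apply_left]
      simp [hyp_apply]
    · rw [swap_apply_right]
      simp [hyp_apply]
  · rw [swap_apply_of_ne_of_ne]
    · simp [hyp_apply, h]
    · simp [h]
    · simp [h]

lemma swap_two (k l : ι) (hkl : k ≠ l) (δ : Bool) :
    swap (k, false) (l, δ) * swap (k, true) (l, !δ) =
      hyp (swap k l) (fun j => (decide (j = k) || decide (j = l)) && δ) := by
  ext1 p
  obtain ⟨j, b⟩ := p
  by_cases h : j = k
  · subst h
    cases b <;> cases δ <;>
      simp [hyp_apply, Perm.mul_apply, swap_apply_def, hkl, hkl.symm]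
  · by_cases h' : j = l
    · subst h'
      cases b <;> cases δ <;>
        simp [hyp_apply, Perm.mul_apply, swap_apply_def, hkl, hkl.symm]
    · cases b <;> cases δ <;>
        simp [hyp_apply, Perm.mul_apply, swap_apply_def, h, h']

lemma two_eq_zero {x : M} (h : x = -x) : x = 0 := by
  have h1 : (2 : ℚ) • x = 0 := by
    rw [two_smul]
    nth_rewrite 2 [h]
    exact add_neg_cancel x
  exact (smul_eq_zero.1 h1).resolve_left (by norm_num)

/-- The number of unordered pairs of colours, with repetitions allowed if `s = true`. -/
def pairs (s : Bool) (c : ℕ) : ℕ := if s = true then (c + 1).choose 2 else c.choose 2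

/-- The alternating sums over the permutations of the pairs, with symmetrization inside the pairs if
`s = false` and antisymmetrization if `s = true`, vanish if there are enough pairs. -/
theorem gam_eq_zero (s : Bool) {c : ℕ} (hc : pairs s c < Fintype.card ι)
    (F : Perm (ι × Bool) → M) (hF : Kills c F) : gam s F = 0 := by
  have h1 : F ∈ colSpan (rt M) (killSub (ι × Bool) M c) c Finset.univ :=
    le_colSpan (killSub_stable c) (killSub_anti c) Finset.univ hF
  clear hF
  induction h1 using Submodule.span_induction with
  | mem F hF =>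
    obtain ⟨-, f, h2, h3⟩ := hF
    have hsw : ∀ p q : ι × Bool, p ≠ q → f p = f q → ∀ θ, F (θ * swap p q) = - F θ := by
      intro p q hpq hf θ
      have h4 := congrFun (h3 p (Finset.mem_univ _) q (Finset.mem_univ _) hf) θ
      rw [rt_apply, sg_swap_true hpq, neg_one_smul] at h4
      rw [← h4, neg_neg]
    -- two pairs with the same colours
    have fin : (∃ k l : ι, ∃ δ : Bool, k ≠ l ∧ f (k, false) = f (l, δ) ∧
        f (k, true) = f (l, !δ)) → gam s F = 0 := by
      rintro ⟨k, l, δ, hkl, hδ1, hδ2⟩
      apply two_eq_zero
      have h4 := gam_mul s F (swap k l) (fun j => (decide (j = k) || decide (j = l)) && δ)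
      rw [← swap_two k l hkl δ, sg_swap_true hkl, chi_two s δ k l hkl, mul_one,
        neg_one_smul] at h4
      rw [← h4]
      have h5 : ∀ θ, F (θ * (swap (k, false) (l, δ) * swap (k, true) (l, !δ))) = F θ := by
        intro θ
        rw [← mul_assoc, hsw (k, true) (l, !δ) (by simp [hkl]) hδ2,
          hsw (k, false) (l, δ) (by simp [hkl]) hδ1, neg_neg]
      simp only [h5]
    cases s
    · by_cases hpair : ∃ i, f (i, false) = f (i, true)
      · obtain ⟨i, hi⟩ := hpair
        apply two_eq_zero
        have h4 := gam_mul false F 1 (fun j => decide (j = i))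
        rw [sg_one, chi_false, one_mul, one_smul, ← swap_pair] at h4
        nth_rewrite 1 [← h4]
        simp only [hsw (i, false) (i, true) (by simp) hi, gam, smul_neg, Finset.sum_neg_distrib]
      · push Not at hpair
        obtain ⟨k, -, l, -, hkl, hkl'⟩ := Finset.exists_ne_map_eq_of_card_lt_of_maps_to
          (s := (Finset.univ : Finset ι)) (t := (Finset.range c).powersetCard 2)
          (f := fun i => {f (i, false), f (i, true)}) (by
            rw [Finset.card_univ, Finset.card_powersetCard, Finset.card_range]
            simpa [pairs] using hc) (by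
            intro i _
            rw [Finset.mem_coe, Finset.mem_powersetCard]
            refine ⟨?_, Finset.card_pair (hpair i)⟩
            intro a ha
            rw [Finset.mem_insert, Finset.mem_singleton] at ha
            rw [Finset.mem_range]
            rcases ha with rfl | rfl
            · exact h2 _ (Finset.mem_univ _)
            · exact h2 _ (Finset.mem_univ _))
        apply fin
        have e1 : f (k, false) ∈ ({f (l, false), f (l, true)} : Finset ℕ) := by
          rw [← hkl']
          exact Finset.mem_insert_self _ _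
        have e2 : f (k, true) ∈ ({f (l, false), f (l, true)} : Finset ℕ) := by
          rw [← hkl']
          exact Finset.mem_insert_of_mem (Finset.mem_singleton_self _)
        rw [Finset.mem_insert, Finset.mem_singleton] at e1 e2
        rcases e1 with e1 | e1 <;> rcases e2 with e2 | e2
        · exact absurd (e1.trans e2.symm) (hpair k)
        · exact ⟨k, l, false, hkl, e1, e2⟩
        · exact ⟨k, l, true, hkl, e1, e2⟩
        · exact absurd (e1.trans e2.symm) (hpair k)
    · obtain ⟨k, -, l, -, hkl, hkl'⟩ := Finset.exists_ne_map_eq_of_card_lt_of_maps_to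
        (s := (Finset.univ : Finset ι)) (t := (Finset.range c).sym2)
        (f := fun i => s(f (i, false), f (i, true))) (by
          rw [Finset.card_univ, Finset.card_sym2, Finset.card_range]
          simpa [pairs] using hc) (by
          intro i _
          rw [Finset.mem_coe, Finset.mk_mem_sym2_iff, Finset.mem_range, Finset.mem_range]
          exact ⟨h2 _ (Finset.mem_univ _), h2 _ (Finset.mem_univ _)⟩)
      apply fin
      rw [Sym2.eq_iff] at hkl'
      rcases hkl' with ⟨e1, e2⟩ | ⟨e1, e2⟩
      · exact ⟨k, l, false, hkl, e1, e2⟩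
      · exact ⟨k, l, true, hkl, e1, e2⟩
  | zero => simp [gam]
  | add F G _ _ hF hG =>
    have : gam s (F + G) = gam s F + gam s G := by
      simp only [gam, Pi.add_apply, smul_add, Finset.sum_add_distrib]
    rw [this, hF, hG, add_zero]
  | smul q F _ hF =>
    have : gam s (q • F) = q • gam s F := by
      simp only [gam, Pi.smul_apply, Finset.smul_sum, smul_comm q]
    rw [this, hF, smul_zero]

end hyp

end Pool.Agent.N164.VZ
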