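import Pool.Agent.N164.VZ.Defs
import Pool.Agent.N164.VZ.TypeII
import Pool.Agent.TH829.Kim.Pts

/-!
# Odd spaces of divisor classes: curves and abelian varieties
-/

set_option autoImplicit false

open CategoryTheory AlgebraicGeometry

universe u v w

namespace Pool.Agent.N164.VZ

open Pool.Agent.H914 Pool.Agent.H914.VarClass Pool.Agent.H914.VarClass.Obj Pool.Agent.W492.BB
  Pool.Agent.W550.Corr Pool.Agent.TH133 Pool.Agent.TH829.Prime Pool.Agent.TH829.Kim
  Pool.Agent.Y152.AS Pool.Agent.X308.V

set_option linter.unusedSectionVars false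

variable {k : Type u} [Field k] {𝒱 : VarClass k}

section chow

variable {C : TheoryData.{u, v, 0} 𝒱 ℚ} [hC : IsChowProj C] {T T' S X Y Z W V : 𝒱.Obj}

include hC

lemma symProduct_eq {n : ℕ} (a : Fin n → C.A S) (x : Fin n → (W ⟶ S)) :
    symProduct C a x = ∑ σ : Equiv.Perm (Fin n), ∏ j, C.pull (x j) (a (σ j)) := by
  unfold symProduct
  apply Finset.sum_congr rfl
  intro σ _
  exact List.prod_ofFn (f := fun i => C.pull (x i) (a (σ i)))

lemma altProduct_eq {n : ℕ} (a : Fin n → C.A S) (x : Fin n → (W ⟶ S)) :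
    altProduct C a x = ∑ σ : Equiv.Perm (Fin n), sg true σ • ∏ j, C.pull (x j) (a (σ j)) := by
  unfold altProduct
  apply Finset.sum_congr rfl
  intro σ _
  have h1 : (List.ofFn fun i => C.up (x i) (a (σ i))).prod = ∏ j, C.pull (x j) (a (σ j)) :=
    List.prod_ofFn (f := fun i => C.pull (x i) (a (σ i)))
  rw [h1, sg, if_pos rfl, Int.cast_smul_eq_zsmul]

lemma OddDim.sum {U : Submodule ℚ (C.A Y)} {w : ℕ} (h : OddDim C U w)
    (u : Fin (w + 1) → C.A Y) (hu : ∀ i, u i ∈ U) (x : Fin (w + 1) → (W ⟶ Y)) :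
    ∑ σ : Equiv.Perm (Fin (w + 1)), ∏ j, C.pull (x j) (u (σ j)) = 0 := by
  rw [← symProduct_eq]
  exact h u hu W x

/-- It is enough to consider generators. -/
lemma oddDim_of_span {s : Set (C.A Y)} {w : ℕ}
    (h : ∀ u : Fin (w + 1) → C.A Y, (∀ i, u i ∈ s) → ∀ (W : 𝒱.Obj) (x : Fin (w + 1) → (W ⟶ Y)),
      ∑ σ : Equiv.Perm (Fin (w + 1)), ∏ j, C.pull (x j) (u (σ j)) = 0) :
    OddDim C (Submodule.span ℚ s) w := by
  intro a ha W x
  have h1 := multilinear_span (permMap (fun _ => 1) (fun j => (C.pull (x j)).toLinearMap))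
    s (fun u hu => by
      rw [permMap_apply]
      simp only [one_smul]
      exact h u hu W x) a ha
  rw [permMap_apply] at h1
  simp only [one_smul] at h1
  rw [symProduct_eq]
  exact h1

/-- The values of the class of a point and of the diagonal. -/
lemma IsPoint.mul_ev {x : C.A T} (hx : IsPoint C x) (s t : W ⟶ T) :
    C.pull s x * ev (dg C T) s t = C.pull s x * C.pull t x := by
  have h1 : C.pull (fst T T) x * dg C T = C.pull (fst T T) x * C.pull (snd T T) x := by
    have h2 := hx.diag
    have h3 : C.pull (Obj.lift (𝟙 T) (𝟙 T)) (C.pull (fst T T) x) = x := by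
      rw [← C.pull_comp, lift_fst, C.pull_id]
    rw [dg, TheoryData.graph, ← C.proj_left, mul_one, h3]
    exact h2
  have h4 := congrArg (C.pull (Obj.lift s t)) h1
  rw [map_mul, map_mul, ← C.pull_comp, ← C.pull_comp, lift_fst, lift_snd] at h4
  exact h4

lemma smul_of_degree {X : 𝒱.Obj} {u : C.A X} {q r : ℚ} (hq : HasDegree C u q)
    (hr : HasDegree C u r) (z : C.A Y) : (q - r) • z = 0 := by
  have h1 := (hq Y).1
  rw [(hr Y).1] at h1
  rw [← one_mul z, ← smul_mul_assoc, sub_smul, h1, sub_self, zero_mul]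

/-- A combination of points is the sum of a combination of differences of points with a given point
and of a multiple of this point. -/
lemma span_point {P : Set (C.A T)} (hP : ∀ x ∈ P, IsPoint C x) (o : C.A T) {z : C.A T}
    (hz : z ∈ Submodule.span ℚ P) : ∃ q : ℚ, HasDegree C z q ∧
      z - q • o ∈ Submodule.span ℚ {w | ∃ x ∈ P, w = x - o} := by
  induction hz using Submodule.span_induction with
  | mem x hx =>
    refine ⟨1, (hP x hx).degree, Submodule.subset_span ⟨x, hx, ?_⟩⟩
    rw [one_smul]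
  | zero =>
    refine ⟨0, hasDegree_zero, ?_⟩
    rw [zero_smul, sub_zero]
    exact Submodule.zero_mem _
  | add x y _ _ hx hy =>
    obtain ⟨q, hq, hq'⟩ := hx
    obtain ⟨r, hr, hr'⟩ := hy
    refine ⟨q + r, HasDegree.add hq hr, ?_⟩
    have := Submodule.add_mem _ hq' hr'
    convert this using 1
    rw [add_smul]
    abel
  | smul c x _ hx =>
    obtain ⟨q, hq, hq'⟩ := hx
    refine ⟨c * q, HasDegree.smul c hq, ?_⟩
    have := Submodule.smul_mem _ c hq'
    convert this using 1
    rw [smul_sub, smul_smul]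

lemma degZero_mem {P : Set (C.A T)} (hP : ∀ x ∈ P, IsPoint C x)
    (hs : ∀ z, C.Deg 1 z → z ∈ Submodule.span ℚ P) (o : C.A T) {u : C.A T} (hu : C.Deg 1 u)
    (hu' : HasDegree C u 0) : u ∈ Submodule.span ℚ {w | ∃ x ∈ P, w = x - o} := by
  obtain ⟨q, hq, hq'⟩ := span_point hP o (hs u hu)
  have h1 := smul_of_degree hq hu' o
  rw [sub_zero] at h1
  rwa [h1, sub_zero] at hq'

/-- The zero-cycles of degree zero on a curve of genus `g` form an odd space of dimension `g`. -/
theorem IsCurve.oddDim {g : ℕ} (hT : IsCurve C T g) : OddDim C (zeroCycles C T) g := by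
  obtain ⟨P, ⟨o, ho⟩, hP, hs, hRR⟩ := hT.points
  have h1 : OddDim C (Submodule.span ℚ {w | ∃ x ∈ P, w = x - o}) g := by
    apply oddDim_of_span
    intro w hw W t
    choose x hx hx' using hw
    obtain ⟨y, hy, hxy⟩ := hRR x o hx ho
    have h1 := sym_points (fun i j => C.pull (t j) (x i))
      (fun i j => C.pull (t j) ((Fin.cons o y : Fin (g + 1) → C.A T) i))
      (fun j k => ev (dg C T) (t j) (t k)) (fun j => C.pull (t j) o)
      (fun i j k => (hP _ (hx i)).mul_ev (t j) (t k))
      (fun i j k => by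
        have h2 : (Fin.cons o y : Fin (g + 1) → C.A T) i ∈ P := by
          refine Fin.cases ?_ (fun i => ?_) i
          · exact ho
          · exact hy i
        exact (hP _ h2).mul_ev (t j) (t k))
      (fun k => by
        rw [← map_sum, ← map_sum, hxy, Fin.sum_univ_succ]
        rfl)
      0 (fun j => rfl)
    rw [← h1]
    apply Finset.sum_congr rfl
    intro σ _
    apply Finset.prod_congr rfl
    intro j _
    rw [hx' (σ j)]
    exact map_sub (C.pull (t j)) _ _
  intro u hu
  apply h1 u
  intro i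
  have h2 : zeroCycles C T ≤ Submodule.span ℚ {w | ∃ x ∈ P, w = x - o} := by
    rw [zeroCycles, Submodule.span_le]
    rintro u ⟨h3, h4⟩
    exact degZero_mem hP hs o h3 h4
  exact h2 (hu i)

section abelian

variable {B : 𝒱.Obj} [GroupLaw B]

lemma up_zero {D : C.A B} (hD : IsAdditive C D) : C.pull (0 : W ⟶ B) D = 0 := by
  have h1 : C.pull ((0 : W ⟶ B) + 0) D = C.pull (0 : W ⟶ B) D + C.pull (0 : W ⟶ B) D :=
    hD.2 W 0 0
  rw [add_zero] at h1
  exact left_eq_add.1 h1

lemma up_sum {D : C.A B} (hD : IsAdditive C D) {ι : Type*} (J : Finset ι) (x : ι → (W ⟶ B)) :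
    C.pull (∑ k ∈ J, x k) D = ∑ k ∈ J, C.pull (x k) D := by
  classical
  induction J using Finset.induction_on with
  | empty => rw [Finset.sum_empty, Finset.sum_empty, up_zero hD]
  | insert i J hi ih =>
    rw [Finset.sum_insert hi, Finset.sum_insert hi, ← ih]
    exact hD.2 W _ _

lemma prod_mem {ι : Type*} (J : Finset ι) (D : ι → C.A Y) (hD : ∀ i, C.Deg 1 (D i)) :
    ∏ i ∈ J, D i ∈ C.gr Y J.card := by
  classical
  induction J using Finset.induction_on with
  | empty =>
    rw [Finset.prod_empty, Finset.card_empty]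
    exact C.one_mem Y
  | insert i J hi ih =>
    rw [Finset.prod_insert hi, Finset.card_insert_of_notMem hi]
    have h1 := C.mul_mem (hD i) ih
    have h2 : (1 : ℤ) + (J.card : ℤ) = ((J.card + 1 : ℕ) : ℤ) := by push_cast; ring
    rwa [h2] at h1

/-- The pull-back of the Picard variety of an abelian variety of dimension `w` is an odd space of
dimension `w`. -/
theorem picard_oddDim (α : Y ⟶ B) : OddDim C (picard C α) B.dim := by
  apply oddDim_of_span
  intro w hw W x
  choose D hD hD' using hw
  have h1 := permanent_zero (fun i k => C.pull (x k ≫ α) (D i)) (fun J => by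
    have h2 : ∀ i, ∑ k ∈ J, C.pull (x k ≫ α) (D i) = C.pull (∑ k ∈ J, x k ≫ α) (D i) :=
      fun i => (up_sum (hD i) J _).symm
    rw [Finset.prod_congr rfl (fun i _ => h2 i), ← map_prod]
    have h3 : ∏ i, D i = 0 := by
      refine hC.gr_top B _ _ (prod_mem Finset.univ D (fun i => (hD i).1)) ?_
      rw [Finset.card_univ, Fintype.card_fin]
      push_cast
      omega
    rw [h3, map_zero])
  rw [← h1, ← Equiv.sum_comp (Equiv.inv (Equiv.Perm (Fin (B.dim + 1))))]
  apply Finset.sum_congr rfl
  intro σ _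
  rw [← Equiv.prod_comp σ]
  apply Finset.prod_congr rfl
  intro j _
  rw [Equiv.inv_apply, inv_app, hD', C.pull_comp]

end abelian

/-- The odd spaces are odd. -/
theorem IsOdd.oddDim {U : Submodule ℚ (C.A Y)} {w : ℕ} (h : IsOdd C Y U w) : OddDim C U w := by
  cases h with
  | curve g hT => exact hT.oddDim
  | picard B α => exact picard_oddDim α
  | relations _ _ hU => exact hU

end chow

end Pool.Agent.N164.VZ
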