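import Pool.Agent.X308.V.Perm2

/-!
# Sums over permutations of products: the symmetrized products of points and degree zero cycles
-/

set_option autoImplicit false

namespace Pool.Agent.N164.VZ

open Equiv Finset Pool.Agent.X308.V

section points

variable {R : Type*} [CommRing R] [Algebra ℚ R] {ι : Type*} [Fintype ι] [DecidableEq ι]

/-- The recursion for the symmetrized products over a set `S` of slots. -/
lemma H_step (X Δ : ι → ι → R) (hX : ∀ i j k, X i j * Δ j k = X i j * X i k) (S : Finset ι)
    (k : ι) (hk : k ∉ S) :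
    (∑ σ : Perm ι, ∏ j ∈ S, X (σ j) j) * (∑ i, X i k - ∑ j ∈ S, Δ j k) =
      (Sᶜ.card : ℚ) • ∑ σ : Perm ι, ∏ j ∈ insert k S, X (σ j) j := by
  have h1 : ∀ σ : Perm ι, (∏ j ∈ S, X (σ j) j) * (∑ i, X i k - ∑ j ∈ S, Δ j k) =
      ∑ l ∈ Sᶜ, (∏ j ∈ S, X (σ j) j) * X (σ l) k := by
    intro σ
    have h2 : ∑ i, X i k = ∑ l ∈ S, X (σ l) k + ∑ l ∈ Sᶜ, X (σ l) k := by
      rw [Finset.sum_add_sum_compl, Equiv.sum_comp σ (fun i => X i k)]
    have h3 : ∀ l ∈ S, (∏ j ∈ S, X (σ j) j) * Δ l k = (∏ j ∈ S, X (σ j) j) * X (σ l) k := by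
      intro l hl
      rw [← Finset.prod_erase_mul S _ hl, mul_assoc, hX, mul_assoc]
    rw [mul_sub, h2, mul_add, Finset.mul_sum S, Finset.mul_sum S, Finset.sum_congr rfl h3,
      add_sub_cancel_left, Finset.mul_sum]
  rw [Finset.sum_mul, Finset.sum_congr rfl (fun σ _ => h1 σ), Finset.sum_comm]
  have h4 : ∀ l ∈ Sᶜ, ∑ σ : Perm ι, (∏ j ∈ S, X (σ j) j) * X (σ l) k =
      ∑ σ : Perm ι, ∏ j ∈ insert k S, X (σ j) j := by
    intro l hl
    rw [Finset.mem_compl] at hl
    rw [← Equiv.sum_comp (Equiv.mulRight (swap l k))]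
    apply Finset.sum_congr rfl
    intro σ _
    rw [Finset.prod_insert hk, mul_comm]
    have e1 : (Equiv.mulRight (swap l k) σ : Perm ι) l = σ k := by
      simp [Perm.mul_apply]
    rw [e1]
    congr 1
    apply Finset.prod_congr rfl
    intro j hj
    have h5 : j ≠ l := fun h => hl (h ▸ hj)
    have h6 : j ≠ k := fun h => hk (h ▸ hj)
    have e2 : (Equiv.mulRight (swap l k) σ : Perm ι) j = σ j := by
      simp [Perm.mul_apply, swap_apply_of_ne_of_ne h5 h6]
    rw [e2]
  rw [Finset.sum_congr rfl h4, Finset.sum_const, Nat.cast_smul_eq_nsmul]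

/-- The symmetrized products of points depend only on the sum of the points. -/
lemma H_eq (X X' Δ : ι → ι → R) (hX : ∀ i j k, X i j * Δ j k = X i j * X i k)
    (hX' : ∀ i j k, X' i j * Δ j k = X' i j * X' i k) (hD : ∀ k, ∑ i, X i k = ∑ i, X' i k)
    (S : Finset ι) :
    ∑ σ : Perm ι, ∏ j ∈ S, X (σ j) j = ∑ σ : Perm ι, ∏ j ∈ S, X' (σ j) j := by
  induction S using Finset.induction_on with
  | empty => simp
  | insert k S hk ih =>
    have h1 := H_step X Δ hX S k hk
    have h2 := H_step X' Δ hX' S k hk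
    rw [ih, hD, h2] at h1
    have h3 : (Sᶜ.card : ℚ) ≠ 0 := by
      rw [Nat.cast_ne_zero, ← Nat.pos_iff_ne_zero, Finset.card_pos]
      exact ⟨k, Finset.mem_compl.2 hk⟩
    have h4 := congrArg (fun z => (Sᶜ.card : ℚ)⁻¹ • z) h1
    simp only [smul_smul, inv_mul_cancel₀ h3, one_smul] at h4
    exact h4.symm

/-- The symmetrized product of the differences of `n` points with a base point vanishes if the sum
of the points is the sum of `n` points one of which is the base point. -/
lemma sym_points (X X' Δ : ι → ι → R) (O : ι → R)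
    (hX : ∀ i j k, X i j * Δ j k = X i j * X i k)
    (hX' : ∀ i j k, X' i j * Δ j k = X' i j * X' i k) (hD : ∀ k, ∑ i, X i k = ∑ i, X' i k)
    (i₀ : ι) (hO : ∀ j, X' i₀ j = O j) :
    ∑ σ : Perm ι, ∏ j, (X (σ j) j - O j) = 0 := by
  have h1 : ∀ Y : ι → ι → R, ∑ σ : Perm ι, ∏ j, (Y (σ j) j - O j) =
      ∑ t ∈ (Finset.univ : Finset ι).powerset, (-1) ^ t.card *
        ((∑ σ : Perm ι, ∏ j ∈ Finset.univ \ t, Y (σ j) j) * ∏ j ∈ t, O j) := by
    intro Y
    have h2 : ∀ σ : Perm ι, ∏ j, (Y (σ j) j - O j) =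
        ∑ t ∈ (Finset.univ : Finset ι).powerset, (-1) ^ t.card *
          ((∏ j ∈ Finset.univ \ t, Y (σ j) j) * ∏ j ∈ t, O j) := by
      intro σ
      rw [Finset.prod_sub]
      apply Finset.sum_congr rfl
      intro t _
      ring
    rw [Finset.sum_congr rfl (fun σ _ => h2 σ), Finset.sum_comm]
    apply Finset.sum_congr rfl
    intro t _
    rw [← Finset.mul_sum, ← Finset.sum_mul]
  have h3 : ∑ σ : Perm ι, ∏ j, (X' (σ j) j - O j) = 0 := by
    apply Finset.sum_eq_zero
    intro σ _
    apply Finset.prod_eq_zero (Finset.mem_univ (σ.symm i₀))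
    rw [Equiv.apply_symm_apply, hO, sub_self]
  rw [← h3, h1, h1]
  apply Finset.sum_congr rfl
  intro t _
  rw [H_eq X X' Δ hX hX' hD]

end points

section permanent

/-- If all the products of the partial sums of the rows of a matrix vanish then its permanent
vanishes. -/
lemma permanent_zero {R : Type*} [CommRing R] {ι : Type*} [Fintype ι] [DecidableEq ι]
    (d : ι → ι → R) (h : ∀ J : Finset ι, ∏ i, ∑ k ∈ J, d i k = 0) :
    ∑ σ : Perm ι, ∏ i, d i (σ i) = 0 := by
  have h1 : ∑ J ∈ (Finset.univ : Finset ι).powerset,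
      (-1 : ℤ) ^ J.card • ∏ i, ∑ k ∈ Jᶜ, d i k = 0 := by
    apply Finset.sum_eq_zero
    intro J _
    rw [h, smul_zero]
  have h2 : ∀ J : Finset ι, (-1 : ℤ) ^ J.card • ∏ i, ∑ k ∈ Jᶜ, d i k =
      ∑ f : ι → ι, if J ⊆ (Finset.univ.image f)ᶜ then (-1 : ℤ) ^ J.card • ∏ i, d i (f i) else 0 := by
    intro J
    rw [Finset.prod_univ_sum, Finset.smul_sum, ← Finset.sum_filter]
    apply Finset.sum_congr
    · ext f
      rw [Fintype.mem_piFinset, Finset.mem_filter]
      constructor
      · intro hf
        refine ⟨Finset.mem_univ _, fun k hk => ?_⟩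
        rw [Finset.mem_compl, Finset.mem_image]
        rintro ⟨i, -, rfl⟩
        exact (Finset.mem_compl.1 (hf i)) hk
      · rintro ⟨-, hf⟩ i
        rw [Finset.mem_compl]
        intro hk
        exact (Finset.mem_compl.1 (hf hk)) (Finset.mem_image_of_mem f (Finset.mem_univ i))
    · intro f _
      rfl
  rw [Finset.sum_congr rfl (fun J _ => h2 J), Finset.sum_comm] at h1
  have h3 : ∀ f : ι → ι, (∑ J ∈ (Finset.univ : Finset ι).powerset,
      if J ⊆ (Finset.univ.image f)ᶜ then (-1 : ℤ) ^ J.card • ∏ i, d i (f i) else 0) =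
      if Function.Surjective f then ∏ i, d i (f i) else 0 := by
    intro f
    rw [← Finset.sum_filter]
    have e1 : (Finset.univ : Finset ι).powerset.filter (fun J => J ⊆ (Finset.univ.image f)ᶜ) =
        ((Finset.univ.image f)ᶜ).powerset := by
      ext J
      simp
    rw [e1, ← Finset.sum_smul, Finset.sum_powerset_neg_one_pow_card]
    by_cases hf : Function.Surjective f
    · rw [if_pos hf, if_pos, one_smul]
      rw [Finset.compl_eq_empty_iff, Finset.image_univ_of_surjective hf]
    · rw [if_neg hf, if_neg, zero_smul]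
      rw [Finset.compl_eq_empty_iff]
      intro h4
      apply hf
      intro k
      have : k ∈ Finset.univ.image f := by rw [h4]; exact Finset.mem_univ _
      obtain ⟨i, -, hi⟩ := Finset.mem_image.1 this
      exact ⟨i, hi⟩
  rw [Finset.sum_congr rfl (fun f _ => h3 f), ← Finset.sum_filter] at h1
  rw [← h1]
  symm
  refine Finset.sum_bij (fun f hf => Equiv.ofBijective f
    (Finite.injective_iff_bijective.1 (Finite.injective_iff_surjective.2
      (Finset.mem_filter.1 hf).2))) ?_ ?_ ?_ ?_
  · intro f _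
    exact Finset.mem_univ _
  · intro f _ g _ h
    funext i
    exact congrArg (fun σ : Perm ι => σ i) h
  · intro σ _
    refine ⟨σ, Finset.mem_filter.2 ⟨Finset.mem_univ _, σ.surjective⟩, ?_⟩
    ext i
    rfl
  · intro f _
    rfl

end permanent

section multilinear

variable {ι : Type*} [Fintype ι] [DecidableEq ι] {V M : Type*} [AddCommGroup V] [Module ℚ V]
  [AddCommGroup M] [Module ℚ M]

/-- A multilinear map which vanishes on the tuples of elements of `s` vanishes on the tuples of
elements of the span of `s`. -/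
lemma multilinear_span (f : MultilinearMap ℚ (fun _ : ι => V) M) (s : Set V)
    (hf : ∀ u : ι → V, (∀ i, u i ∈ s) → f u = 0) (u : ι → V)
    (hu : ∀ i, u i ∈ Submodule.span ℚ s) : f u = 0 := by
  have key : ∀ J : Finset ι, ∀ u : ι → V, (∀ i ∈ J, u i ∈ Submodule.span ℚ s) →
      (∀ i, i ∉ J → u i ∈ s) → f u = 0 := by
    intro J
    induction J using Finset.induction_on with
    | empty =>
      intro u _ h
      exact hf u (fun i => h i (by simp))
    | insert i J hi ih =>
      intro u h1 h2
      have h3 : ∀ v ∈ Submodule.span ℚ s, f (Function.update u i v) = 0 := by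
        intro v hv
        induction hv using Submodule.span_induction with
        | mem v hv =>
          apply ih
          · intro j hj
            have hji : j ≠ i := fun h => hi (h ▸ hj)
            rw [Function.update_of_ne hji]
            exact h1 j (Finset.mem_insert_of_mem hj)
          · intro j hj
            by_cases hji : j = i
            · subst hji
              rw [Function.update_self]
              exact hv
            · rw [Function.update_of_ne hji]
              exact h2 j (by simp [hji, hj])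
        | zero => exact f.map_update_zero u i
        | add v w _ _ hv hw => rw [f.map_update_add, hv, hw, add_zero]
        | smul q v _ hv => rw [f.map_update_smul, hv, smul_zero]
      have h4 := h3 (u i) (h1 i (Finset.mem_insert_self _ _))
      rwa [Function.update_eq_self] at h4
  exact key Finset.univ u (fun i _ => hu i) (fun i hi => absurd (Finset.mem_univ i) hi)

variable {R : Type*} [CommRing R] [Algebra ℚ R]

/-- The multilinear map `u ↦ ∑ σ, c σ ∏ j, ℓ j (u (σ j))`. -/
noncomputable def permMap (c : Perm ι → ℚ) (ℓ : ι → V →ₗ[ℚ] R) :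
    MultilinearMap ℚ (fun _ : ι => V) R :=
  ∑ σ : Perm ι, c σ • (MultilinearMap.mkPiAlgebra ℚ ι R).compLinearMap (fun i => ℓ (σ.symm i))

lemma permMap_apply (c : Perm ι → ℚ) (ℓ : ι → V →ₗ[ℚ] R) (u : ι → V) :
    permMap c ℓ u = ∑ σ : Perm ι, c σ • ∏ j, ℓ j (u (σ j)) := by
  rw [permMap, _root_.sum_apply]
  apply Finset.sum_congr rfl
  intro σ _
  rw [smul_apply, MultilinearMap.compLinearMap_apply,
    MultilinearMap.mkPiAlgebra_apply]
  congr 1
  rw [← Equiv.prod_comp σ]
  apply Finset.prod_congr rfl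
  intro j _
  rw [Equiv.symm_apply_apply]

end multilinear

end Pool.Agent.N164.VZ
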