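import Pool.Agent.N164.VZ.Sym

/-!
# Functions on symmetric groups killed by symmetrizers of a given size
-/

set_option autoImplicit false

namespace Pool.Agent.N164.VZ

open Equiv Finset Pool.Agent.X308.V

variable {R : Type*} [CommRing R] [Algebra ℚ R] {ι : Type*} [Fintype ι] [DecidableEq ι]

/-- The function `A` on the permutations is killed by the symmetrizers over `c + 1` indices. -/
def Kills {M : Type*} [AddCommMonoid M] (c : ℕ) (A : Perm ι → M) : Prop :=
  ∀ B : Finset ι, B.card = c + 1 → ∀ u v : Perm ι, ∑ τ ∈ supp B, A (u * τ * v) = 0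

set_option linter.unusedSectionVars false

lemma app_inv (v : Perm ι) (j : ι) : v (v⁻¹ j) = j := (eq_symm_apply v).mp rfl

lemma inv_app (v : Perm ι) (j : ι) : v⁻¹ (v j) = j := Perm.inv_eq_iff_eq.mpr rfl

/-- Sums over the permutations of the elements of `B`. -/
lemma sum_supp_eq {M : Type*} [AddCommMonoid M] (B : Finset ι) (F : Perm ι → M) :
    ∑ π ∈ supp B, F π = ∑ ρ : Perm {i // i ∈ B}, F (Perm.ofSubtype ρ) := by
  have h1 : ∑ π ∈ supp B, F π = ∑ f : { f : Perm ι // ∀ a, ¬ (a ∈ B) → f a = a }, F f :=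
    Finset.sum_subtype (supp B) (p := fun f => ∀ a, ¬ (a ∈ B) → f a = a)
      (fun π => mem_supp) F
  rw [h1, ← Equiv.sum_comp (Perm.subtypeEquivSubtypePerm (fun a => a ∈ B))]
  rfl

/-- A permanent or determinant over the elements of `B`. -/
lemma sum_supp_prod (s : Bool) (B : Finset ι) (f : ι → ι → R) {n : ℕ}
    (e : Fin n ≃ {i // i ∈ B}) :
    ∑ π ∈ supp B, sg s π • ∏ i ∈ B, f i (π i) =
      ∑ ρ : Perm (Fin n), sg s ρ • ∏ j, f (e j) (e (ρ j)) := by
  rw [sum_supp_eq, ← Equiv.sum_comp (e.permCongr)]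
  apply Finset.sum_congr rfl
  intro ρ _
  have h1 : sg s (Perm.ofSubtype (e.permCongr ρ) : Perm ι) = sg s ρ := by
    cases s
    · rw [sg_false, sg_false]
    · unfold sg
      simp only [Perm.sign_ofSubtype, Perm.sign_permCongr]
  rw [h1]
  congr 1
  rw [← Finset.prod_coe_sort B, ← Equiv.prod_comp e]
  apply Finset.prod_congr rfl
  intro j _
  rw [Perm.ofSubtype_apply_coe, Equiv.permCongr_apply, Equiv.symm_apply_apply]

/-- The signed or unsigned sums of products over the translates of the permutations of the elements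
of `B` vanish as soon as the corresponding small sums vanish. -/
lemma sum_supp_translate (s : Bool) {n : ℕ} (f : ι → ι → R) (B : Finset ι) (hB : B.card = n)
    (u v : Perm ι)
    (hf : ∀ p q : Fin n → ι, (∀ j, p j ∈ B) →
      ∑ ρ : Perm (Fin n), sg s ρ • ∏ j, f (u (p (ρ j))) (q j) = 0) :
    ∑ τ ∈ supp B, sg s τ • ∏ k, f ((u * τ * v) k) k = 0 := by
  have e : Fin n ≃ {i // i ∈ B} := (Fintype.equivFinOfCardEq (by rw [Fintype.card_coe, hB])).symm
  have h1 : ∀ τ ∈ supp B, sg s τ • ∏ k, f ((u * τ * v) k) k =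
      (sg s τ • ∏ j ∈ B, f (u (τ j)) (v⁻¹ j)) * ∏ j ∈ Bᶜ, f (u j) (v⁻¹ j) := by
    intro τ hτ
    rw [smul_mul_assoc]
    congr 1
    rw [← Equiv.prod_comp v⁻¹, ← Finset.prod_mul_prod_compl B]
    congr 1
    · apply Finset.prod_congr rfl
      intro j _
      rw [Perm.mul_apply, Perm.mul_apply, app_inv]
    · apply Finset.prod_congr rfl
      intro j hj
      rw [Finset.mem_compl] at hj
      rw [Perm.mul_apply, Perm.mul_apply, app_inv, mem_supp.1 hτ j hj]
  rw [Finset.sum_congr rfl h1, ← Finset.sum_mul,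
    sum_supp_prod s B (fun i j => f (u j) (v⁻¹ i)) e,
    hf (fun j => e j) (fun j => v⁻¹ (e j)) (fun j => (e j).2), zero_mul]

lemma kills_of {c : ℕ} (f : ι → ι → R)
    (hf : ∀ p q : Fin (c + 1) → ι, ∑ ρ : Perm (Fin (c + 1)), ∏ j, f (p (ρ j)) (q j) = 0) :
    Kills c (fun θ : Perm ι => ∏ k, f (θ k) k) := by
  intro B hB u v
  have h := sum_supp_translate false f B hB u v (fun p q _ => by
    simpa [sg_false] using hf (fun j => u (p j)) q)
  simpa only [sg_false, one_smul] using h

/-- An alternating sum of products vanishes if the alternating sums of products of some of the rows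
vanish. -/
lemma alt_of_subset {m : ℕ} (f : ι → ι → R) (B : Finset ι) (hB : B.card = m)
    (hf : ∀ p q : Fin m → ι, (∀ j, p j ∈ B) →
      ∑ ρ : Perm (Fin m), sg true ρ • ∏ j, f (p (ρ j)) (q j) = 0) :
    ∑ σ : Perm ι, sg true σ • ∏ k, f (σ k) k = 0 := by
  have h1 : ∀ τ : Perm ι, ∑ σ : Perm ι, sg true σ • ∏ k, f (σ k) k =
      ∑ σ : Perm ι, sg true (τ * σ) • ∏ k, f ((τ * σ) k) k := by
    intro τ
    exact (Equiv.sum_comp (Equiv.mulLeft τ) (fun σ => sg true σ • ∏ k, f (σ k) k)).symm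
  have h2 : ((supp B).card : ℚ) • ∑ σ : Perm ι, sg true σ • ∏ k, f (σ k) k = 0 := by
    rw [Nat.cast_smul_eq_nsmul, ← Finset.sum_const,
      Finset.sum_congr rfl (fun τ _ => h1 τ), Finset.sum_comm]
    apply Finset.sum_eq_zero
    intro σ _
    have h3 := sum_supp_translate true f B hB 1 σ (fun p q hp => by
      simpa only [Perm.one_apply] using hf p q hp)
    simp only [one_mul] at h3
    have h4 : ∀ τ ∈ supp B, sg true (τ * σ) • ∏ k, f ((τ * σ) k) k =
        sg true σ • (sg true τ • ∏ k, f ((τ * σ) k) k) := by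
      intro τ _
      rw [smul_smul, sg_mul, mul_comm (sg true σ)]
    rw [Finset.sum_congr rfl h4, ← Finset.smul_sum, h3, smul_zero]
  have h3 : ((supp B).card : ℚ) ≠ 0 := by
    have : 0 < (supp B).card := card_pos.2 ⟨1, one_mem_supp B⟩
    positivity
  exact (smul_eq_zero.1 h2).resolve_left h3

/-- The alternating sum of the products of two functions killed by symmetrizers vanishes if there
are enough indices. -/
theorem alt_mul_eq_zero {a b : ℕ} (h : a * b < Fintype.card ι) {A A' : Perm ι → R}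
    (hA : Kills b A) (hA' : Kills a A') : ∑ σ, sg true σ • (A σ * A' σ) = 0 := by
  let F : Perm ι → R := fun θ => ∑ σ, sg true σ • (A (θ * σ) * A' σ)
  have h0 := fun_eq_zero a b (Finset.univ : Finset ι) (by rwa [Finset.card_univ]) F ?_ ?_ 1
    (one_mem_supp _)
  · simpa only [F, one_mul] using h0
  · intro B _ hB u _ v _
    simp only [F, sg_false, one_smul]
    rw [Finset.sum_comm]
    apply Finset.sum_eq_zero
    intro σ _
    rw [← Finset.smul_sum, ← Finset.sum_mul]
    have h1 := hA B hB u (v * σ)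
    have h2 : ∑ τ ∈ supp B, A (u * τ * v * σ) = 0 := by
      rw [← h1]
      apply Finset.sum_congr rfl
      intro τ _
      rw [mul_assoc (u * τ)]
    rw [h2, zero_mul, smul_zero]
  · intro B _ hB u _ v _
    simp only [F, Finset.smul_sum]
    have h1 : ∀ τ : Perm ι, ∑ σ, sg true τ • (sg true σ • (A (u * τ * v * σ) * A' σ)) =
        ∑ ρ, sg true (v⁻¹ * u⁻¹ * ρ) • (A ρ * A' (v⁻¹ * τ⁻¹ * (u⁻¹ * ρ))) := by
      intro τ
      rw [← Equiv.sum_comp (Equiv.mulLeft (v⁻¹ * τ⁻¹ * u⁻¹))]
      apply Finset.sum_congr rfl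
      intro ρ _
      rw [smul_smul]
      have e1 : (Equiv.mulLeft (v⁻¹ * τ⁻¹ * u⁻¹) ρ : Perm ι) = v⁻¹ * τ⁻¹ * (u⁻¹ * ρ) := by
        simp [mul_assoc]
      have e2 : u * τ * v * (v⁻¹ * τ⁻¹ * (u⁻¹ * ρ)) = ρ := by group
      rw [e1, e2]
      congr 1
      simp only [sg_mul, sg_inv]
      have := sg_sq true τ
      linear_combination (sg true v * sg true u * sg true ρ) * this
    rw [Finset.sum_congr rfl (fun τ _ => h1 τ), Finset.sum_comm]
    apply Finset.sum_eq_zero
    intro ρ _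
    rw [← Finset.smul_sum, ← Finset.mul_sum]
    have h2 := hA' B hB v⁻¹ (u⁻¹ * ρ)
    rw [← sum_supp_inv] at h2
    rw [h2, mul_zero, smul_zero]

end Pool.Agent.N164.VZ
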